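import Pool.Agent.helper72.Cov.Twist2

/-! Near-coincidences of progressions whose residues follow a smooth function. -/

namespace Pool.Agent.helper72.Cov

open Finset

/-- The data and hypotheses of the argument (`g` is the derivative of `f`). -/
structure Setup where
  P : ℝ
  H : ℝ
  L : ℝ
  B : ℝ
  f : ℝ → ℝ
  g : ℝ → ℝ
  Q : Finset ℕ
  b : ℕ → ℤ
  hH : 1024 ≤ H
  hHP : H ≤ P
  hL1 : 1 ≤ L
  hLH : 256 * L ≤ H
  hB0 : 0 ≤ B
  hBP : (B * P) ^ 2 ≤ L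
  hBH : B * H ^ 2 ≤ L
  hQ : ∀ p ∈ Q, P ≤ p ∧ (p : ℝ) ≤ 2 * P
  hb : ∀ p ∈ Q, |(b p : ℝ) - f p| ≤ L
  hf : ∀ x, P ≤ x → x ≤ 2 * P → |f x| ≤ P * H
  tay : ∀ x y, P ≤ x → x ≤ 2 * P → P ≤ y → y ≤ 2 * P →
    |f y - f x - g x * (y - x)| ≤ B * (y - x) ^ 2
  lip : ∀ x y, P ≤ x → x ≤ 2 * P → P ≤ y → y ≤ 2 * P → |g x - g y| ≤ B * |x - y|

namespace Setup

variable (S : Setup)

theorem H0 : 0 < S.H := by linarith [S.hH]
theorem P0 : 0 < S.P := by linarith [S.hH, S.hHP]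

theorem BP_le : S.B * S.P ≤ S.H / 512 := by
  have h1 := S.hBP
  have h2 := S.hLH
  have h3 := S.hH
  have h4 : S.H / 256 ≤ (S.H / 512) ^ 2 := by nlinarith
  have h5 : (S.B * S.P) ^ 2 ≤ (S.H / 512) ^ 2 := by linarith
  exact le_of_sq_le_sq h5 (by linarith) |>.trans le_rfl
  where
  le_of_sq_le_sq {a c : ℝ} (h : a ^ 2 ≤ c ^ 2) (hc : 0 ≤ c) : a ≤ c := by
    exact (abs_le_of_sq_le_sq' h hc).2

theorem B_le : S.B ≤ 1 := by
  have h1 := S.BP_le
  have h2 := S.hHP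
  have h3 := S.P0
  by_contra hcon
  push Not at hcon
  have : 1 * S.P < S.B * S.P := mul_lt_mul_of_pos_right hcon h3
  linarith

theorem g_le {x : ℝ} (h1 : S.P ≤ x) (h2 : x ≤ 2 * S.P) : |S.g x| ≤ 5 * S.H := by
  have hP := S.P0
  have hBP := S.BP_le
  have hH := S.H0
  have key : ∀ y, S.P ≤ y → y ≤ 2 * S.P → S.P / 2 ≤ |y - x| → |y - x| ≤ S.P → |S.g x| ≤ 5 * S.H := by
    intro y hy1 hy2 hy3 hy4
    have e1 := S.tay x y h1 h2 hy1 hy2
    have e2 := S.hf x h1 h2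
    have e3 := S.hf y hy1 hy2
    have e4 : |S.g x| * |y - x| ≤ 2 * (S.P * S.H) + S.B * (y - x) ^ 2 := by
      rw [← abs_mul]
      have : S.g x * (y - x) = S.f y - S.f x - (S.f y - S.f x - S.g x * (y - x)) := by ring
      rw [this]
      calc |S.f y - S.f x - (S.f y - S.f x - S.g x * (y - x))|
          ≤ |S.f y - S.f x| + |S.f y - S.f x - S.g x * (y - x)| := abs_sub _ _
        _ ≤ (|S.f y| + |S.f x|) + S.B * (y - x) ^ 2 := add_le_add (abs_sub _ _) e1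
        _ ≤ _ := by linarith
    have e5 : S.B * (y - x) ^ 2 ≤ S.H / 512 * S.P := by
      have : (y - x) ^ 2 ≤ S.P ^ 2 := by
        rw [← sq_abs]
        exact pow_le_pow_left₀ (abs_nonneg _) hy4 2
      calc S.B * (y - x) ^ 2 ≤ S.B * S.P ^ 2 := mul_le_mul_of_nonneg_left this S.hB0
        _ = (S.B * S.P) * S.P := by ring
        _ ≤ S.H / 512 * S.P := mul_le_mul_of_nonneg_right hBP hP.le
    have e6 : |S.g x| * (S.P / 2) ≤ |S.g x| * |y - x| :=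
      mul_le_mul_of_nonneg_left hy3 (abs_nonneg _)
    have e7 : |S.g x| * (S.P / 2) ≤ (5 * S.H) * (S.P / 2) := by nlinarith
    exact le_of_mul_le_mul_right e7 (by linarith)
  rcases le_total x (3 / 2 * S.P) with h | h
  · apply key (2 * S.P) (by linarith) le_rfl
    · rw [abs_of_nonneg (by linarith)]; linarith
    · rw [abs_of_nonneg (by linarith)]; linarith
  · apply key S.P le_rfl (by linarith)
    · rw [abs_of_nonpos (by linarith)]; linarith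
    · rw [abs_of_nonpos (by linarith)]; linarith

/-- The length of a block. -/
noncomputable def W : ℕ := ⌊S.H⌋₊

theorem W_le : (S.W : ℝ) ≤ S.H := Nat.floor_le S.H0.le
theorem W_ge : S.H / 2 ≤ S.W := by
  have h1 := Nat.lt_floor_add_one S.H
  have h2 := S.hH
  unfold W
  linarith
theorem W_pos : 0 < S.W := by
  have h := S.W_ge
  have h2 := S.H0
  have : (0 : ℝ) < S.W := by linarith
  exact_mod_cast this

/-- The solutions `(p, q)` with `p` in block `i` of `k p + b p = l q + b q`. -/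
noncomputable def sol (k l : ℤ) (i : ℕ) : Finset (ℕ × ℕ) :=
  (S.Q ×ˢ S.Q).filter fun x => x.1 / S.W = i ∧ S.H / 16 ≤ |(k : ℝ) + S.g x.1| ∧
    S.H / 16 ≤ |(l : ℝ) + S.g x.2| ∧ |(k : ℝ)| ≤ 3 * S.H ∧ |(l : ℝ)| ≤ 3 * S.H ∧
      k * x.1 + S.b x.1 = l * x.2 + S.b x.2

/-- Facts about one solution. -/
structure Sol (k l : ℤ) (p q : ℕ) : Prop where
  p1 : S.P ≤ p
  p2 : (p : ℝ) ≤ 2 * S.P
  q1 : S.P ≤ q
  q2 : (q : ℝ) ≤ 2 * S.P
  bp : |(S.b p : ℝ) - S.f p| ≤ S.L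
  bq : |(S.b q : ℝ) - S.f q| ≤ S.L
  xk : S.H / 16 ≤ |(k : ℝ) + S.g p|
  yl : S.H / 16 ≤ |(l : ℝ) + S.g q|
  xk2 : |(k : ℝ) + S.g p| ≤ 8 * S.H
  yl2 : |(l : ℝ) + S.g q| ≤ 8 * S.H
  eq : (k : ℝ) * p + S.b p = l * q + S.b q

variable {S}

theorem sol_facts {k l : ℤ} {i : ℕ} {x : ℕ × ℕ} (hx : x ∈ S.sol k l i) : S.Sol k l x.1 x.2 := by
  rw [sol, Finset.mem_filter, Finset.mem_product] at hx
  obtain ⟨⟨h1, h2⟩, h3, h4, h5, h6, h7, h8⟩ := hx
  have e1 := S.hQ _ h1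
  have e2 := S.hQ _ h2
  refine ⟨e1.1, e1.2, e2.1, e2.2, S.hb _ h1, S.hb _ h2, h4, h5, ?_, ?_, by exact_mod_cast h8⟩
  · have := S.g_le e1.1 e1.2
    calc |(k : ℝ) + S.g x.1| ≤ |(k : ℝ)| + |S.g x.1| := abs_add_le _ _
      _ ≤ 8 * S.H := by linarith
  · have := S.g_le e2.1 e2.2
    calc |(l : ℝ) + S.g x.2| ≤ |(l : ℝ)| + |S.g x.2| := abs_add_le _ _
      _ ≤ 8 * S.H := by linarith

theorem block_dist {k l : ℤ} {i : ℕ} {x y : ℕ × ℕ} {k' l' : ℤ} (hx : x ∈ S.sol k l i)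
    (hy : y ∈ S.sol k' l' i) : |(x.1 : ℤ) - y.1| < S.W := by
  rw [sol, Finset.mem_filter] at hx hy
  have h1 := hx.2.1
  have h2 := hy.2.1
  have hW := S.W_pos
  have e1 := Nat.div_add_mod x.1 S.W
  have e2 := Nat.div_add_mod y.1 S.W
  have e3 := Nat.mod_lt x.1 hW
  have e4 := Nat.mod_lt y.1 hW
  rw [h1] at e1
  rw [h2] at e2
  rw [abs_lt]
  constructor <;> omega

/-- The difference of two solutions of the same `(k, l)`. -/
theorem diff_bound {k l : ℤ} {p q p' q' : ℕ} (h : S.Sol k l p q) (h' : S.Sol k l p' q') :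
    |((k : ℝ) + S.g p) * ((p' : ℝ) - p) - ((l : ℝ) + S.g q) * ((q' : ℝ) - q)| ≤
      4 * S.L + S.B * ((p' : ℝ) - p) ^ 2 + S.B * ((q' : ℝ) - q) ^ 2 := by
  have e1 := S.tay p p' h.p1 h.p2 h'.p1 h'.p2
  have e2 := S.tay q q' h.q1 h.q2 h'.q1 h'.q2
  have e3 := h.bp
  have e4 := h.bq
  have e5 := h'.bp
  have e6 := h'.bq
  have e7 := h.eq
  have e8 := h'.eq
  rw [abs_le] at e1 e2 e3 e4 e5 e6 ⊢
  constructor <;> nlinarith

theorem ratio_bound {k l : ℤ} {p q p' q' : ℕ} (h : S.Sol k l p q) (h' : S.Sol k l p' q') :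
    |(q' : ℤ) - q| ≤ 133 * |(p' : ℤ) - p| := by
  have hd := diff_bound h h'
  have hBP := S.BP_le
  have hH := S.H0
  have hP := S.P0
  have hLH := S.hLH
  set u : ℝ := (p' : ℝ) - p with hu
  set v : ℝ := (q' : ℝ) - q with hv
  have hu1 : |u| ≤ S.P := by
    rw [hu, abs_le]; constructor <;> linarith [h.p1, h.p2, h'.p1, h'.p2]
  have hv1 : |v| ≤ S.P := by
    rw [hv, abs_le]; constructor <;> linarith [h.q1, h.q2, h'.q1, h'.q2]
  have sqb : ∀ w : ℝ, |w| ≤ S.P → S.B * w ^ 2 ≤ S.H / 512 * |w| := by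
    intro w hw
    rw [← sq_abs]
    calc S.B * |w| ^ 2 = (S.B * |w|) * |w| := by ring
      _ ≤ (S.B * S.P) * |w| := by
        apply mul_le_mul_of_nonneg_right _ (abs_nonneg _)
        exact mul_le_mul_of_nonneg_left hw S.hB0
      _ ≤ S.H / 512 * |w| := mul_le_mul_of_nonneg_right hBP (abs_nonneg _)
  have e1 := sqb u hu1
  have e2 := sqb v hv1
  have e3 : |((l : ℝ) + S.g q) * v| ≤ |((k : ℝ) + S.g p) * u| +
      |((k : ℝ) + S.g p) * u - ((l : ℝ) + S.g q) * v| := by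
    have : ((l : ℝ) + S.g q) * v = ((k : ℝ) + S.g p) * u -
      (((k : ℝ) + S.g p) * u - ((l : ℝ) + S.g q) * v) := by ring
    nth_rewrite 1 [this]
    exact abs_sub _ _
  rw [abs_mul, abs_mul] at e3
  have e4 : S.H / 16 * |v| ≤ |(l : ℝ) + S.g q| * |v| :=
    mul_le_mul_of_nonneg_right h.yl (abs_nonneg _)
  have e5 : |(k : ℝ) + S.g p| * |u| ≤ 8 * S.H * |u| :=
    mul_le_mul_of_nonneg_right h.xk2 (abs_nonneg _)
  -- (31/512) H |v| ≤ (8 + 1/512) H |u| + H/64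
  have e6 : 31 / 512 * (S.H * |v|) ≤ (8 + 1 / 512) * (S.H * |u|) + S.H / 64 := by linarith
  have e7 : S.H * (31 * |v|) ≤ S.H * (4097 * |u| + 8) := by linarith
  have e8 : 31 * |v| ≤ 4097 * |u| + 8 := le_of_mul_le_mul_left e7 hH
  have e9 : 31 * |(q' : ℤ) - q| ≤ 4097 * |(p' : ℤ) - p| + 8 := by
    have : ((31 * |(q' : ℤ) - q| : ℤ) : ℝ) ≤ ((4097 * |(p' : ℤ) - p| + 8 : ℤ) : ℝ) := by
      push_cast
      exact e8
    exact_mod_cast this
  have e10 := abs_nonneg ((p' : ℤ) - p)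
  have e11 := abs_nonneg ((q' : ℤ) - q)
  omega

theorem base_bound {k l : ℤ} {i : ℕ} {z x y : ℕ × ℕ} (hz : z ∈ S.sol k l i)
    (hx : x ∈ S.sol k l i) (hy : y ∈ S.sol k l i) :
    |((k : ℝ) + S.g z.1) * ((y.1 : ℝ) - x.1) - ((l : ℝ) + S.g z.2) * ((y.2 : ℝ) - x.2)| ≤
      36000 * S.L := by
  have fz := sol_facts hz
  have fx := sol_facts hx
  have fy := sol_facts hy
  have hd := diff_bound fx fy
  have r1 := ratio_bound fx fy
  have r2 := ratio_bound fz fx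
  have b1 := (block_dist hx hy).le
  have b2 := (block_dist hz hx).le
  have hWH := S.W_le
  have hB0 := S.hB0
  have hH := S.H0
  have hBH := S.hBH
  have l1 := S.lip x.1 z.1 fx.p1 fx.p2 fz.p1 fz.p2
  have l2 := S.lip x.2 z.2 fx.q1 fx.q2 fz.q1 fz.q2
  -- real versions
  have b1' : |(y.1 : ℝ) - x.1| ≤ S.H := by
    have h1 : ((|(x.1 : ℤ) - y.1| : ℤ) : ℝ) ≤ ((S.W : ℤ) : ℝ) := by exact_mod_cast b1
    push_cast at h1
    rw [abs_sub_comm] at h1
    linarith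
  have b2' : |(x.1 : ℝ) - z.1| ≤ S.H := by
    have h1 : ((|(z.1 : ℤ) - x.1| : ℤ) : ℝ) ≤ ((S.W : ℤ) : ℝ) := by exact_mod_cast b2
    push_cast at h1
    rw [abs_sub_comm] at h1
    linarith
  have r1' : |(y.2 : ℝ) - x.2| ≤ 133 * S.H := by
    have h1 : ((|(y.2 : ℤ) - x.2| : ℤ) : ℝ) ≤ ((133 * |(y.1 : ℤ) - x.1| : ℤ) : ℝ) := by
      exact_mod_cast r1
    push_cast at h1
    linarith
  have r2' : |(x.2 : ℝ) - z.2| ≤ 133 * S.H := by
    have h1 : ((|(x.2 : ℤ) - z.2| : ℤ) : ℝ) ≤ ((133 * |(x.1 : ℤ) - z.1| : ℤ) : ℝ) := by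
      exact_mod_cast r2
    push_cast at h1
    linarith
  set u : ℝ := (y.1 : ℝ) - x.1 with hu
  set v : ℝ := (y.2 : ℝ) - x.2 with hv
  have e1 : ((k : ℝ) + S.g z.1) * u - ((l : ℝ) + S.g z.2) * v =
      (((k : ℝ) + S.g x.1) * u - ((l : ℝ) + S.g x.2) * v) +
        (-(S.g x.1 - S.g z.1) * u + (S.g x.2 - S.g z.2) * v) := by ring
  have u2 : u ^ 2 ≤ S.H ^ 2 := by
    rw [← sq_abs]; exact pow_le_pow_left₀ (abs_nonneg _) b1' 2
  have v2 : v ^ 2 ≤ 17689 * S.H ^ 2 := by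
    rw [← sq_abs]
    calc |v| ^ 2 ≤ (133 * S.H) ^ 2 := pow_le_pow_left₀ (abs_nonneg _) r1' 2
      _ = _ := by ring
  have u3 : S.B * u ^ 2 ≤ S.L := (mul_le_mul_of_nonneg_left u2 hB0).trans hBH
  have v3 : S.B * v ^ 2 ≤ 17689 * S.L := by
    have := mul_le_mul_of_nonneg_left v2 hB0
    nlinarith
  have t1 : |(-(S.g x.1 - S.g z.1)) * u| ≤ S.L := by
    rw [abs_mul, abs_neg]
    calc |S.g x.1 - S.g z.1| * |u| ≤ (S.B * |(x.1 : ℝ) - z.1|) * |u| :=
          mul_le_mul_of_nonneg_right l1 (abs_nonneg _)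
      _ ≤ (S.B * S.H) * S.H := by
          apply mul_le_mul _ b1' (abs_nonneg _) (by positivity)
          exact mul_le_mul_of_nonneg_left b2' hB0
      _ = S.B * S.H ^ 2 := by ring
      _ ≤ S.L := hBH
  have t2 : |(S.g x.2 - S.g z.2) * v| ≤ 17689 * S.L := by
    rw [abs_mul]
    calc |S.g x.2 - S.g z.2| * |v| ≤ (S.B * |(x.2 : ℝ) - z.2|) * |v| :=
          mul_le_mul_of_nonneg_right l2 (abs_nonneg _)
      _ ≤ (S.B * (133 * S.H)) * (133 * S.H) := by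
          apply mul_le_mul _ r1' (abs_nonneg _) (by positivity)
          exact mul_le_mul_of_nonneg_left r2' hB0
      _ = 17689 * (S.B * S.H ^ 2) := by ring
      _ ≤ 17689 * S.L := by linarith
  rw [e1]
  have hL := S.hL1
  calc |(((k : ℝ) + S.g x.1) * u - ((l : ℝ) + S.g x.2) * v) +
        (-(S.g x.1 - S.g z.1) * u + (S.g x.2 - S.g z.2) * v)|
      ≤ |(((k : ℝ) + S.g x.1) * u - ((l : ℝ) + S.g x.2) * v)| +
        (|(-(S.g x.1 - S.g z.1)) * u| + |(S.g x.2 - S.g z.2) * v|) :=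
        (abs_add_le _ _).trans (by gcongr; exact abs_add_le _ _)
    _ ≤ 36000 * S.L := by linarith

theorem loc1 {k l : ℤ} {p q : ℕ} (h : S.Sol k l p q) :
    |((k : ℝ) + S.g p) * p - ((l : ℝ) + S.g q) * q| ≤ 3 * (S.B * S.P ^ 2) + 2 * S.L := by
  have e1 := S.tay p q h.p1 h.p2 h.q1 h.q2
  have e2 := S.lip p q h.p1 h.p2 h.q1 h.q2
  have hP := S.P0
  have hpq : |(p : ℝ) - q| ≤ S.P := by
    rw [abs_le]; constructor <;> linarith [h.p1, h.p2, h.q1, h.q2]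
  have e3 : S.B * ((q : ℝ) - p) ^ 2 ≤ S.B * S.P ^ 2 := by
    apply mul_le_mul_of_nonneg_left _ S.hB0
    rw [← sq_abs, abs_sub_comm]
    exact pow_le_pow_left₀ (abs_nonneg _) hpq 2
  have e4 : |(S.g p - S.g q) * q| ≤ 2 * (S.B * S.P ^ 2) := by
    rw [abs_mul, abs_of_nonneg (by linarith [h.q1] : (0 : ℝ) ≤ q)]
    calc |S.g p - S.g q| * (q : ℝ) ≤ (S.B * S.P) * (2 * S.P) := by
          apply mul_le_mul _ h.q2 (by linarith [h.q1]) (mul_nonneg S.hB0 hP.le)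
          exact e2.trans (mul_le_mul_of_nonneg_left hpq S.hB0)
      _ = _ := by ring
  have e5 := h.bp
  have e6 := h.bq
  have e7 := h.eq
  have e8 : ((k : ℝ) + S.g p) * p - ((l : ℝ) + S.g q) * q =
      (S.f q - S.f p - S.g p * ((q : ℝ) - p)) + (S.g p - S.g q) * q +
        (((S.b q : ℝ) - S.f q) - ((S.b p : ℝ) - S.f p)) := by
    have : (k : ℝ) * p = l * q + S.b q - S.b p := by linarith
    linear_combination this
  rw [e8]
  calc |(S.f q - S.f p - S.g p * ((q : ℝ) - p)) + (S.g p - S.g q) * q +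
        (((S.b q : ℝ) - S.f q) - ((S.b p : ℝ) - S.f p))|
      ≤ |(S.f q - S.f p - S.g p * ((q : ℝ) - p)) + (S.g p - S.g q) * q| +
        |((S.b q : ℝ) - S.f q) - ((S.b p : ℝ) - S.f p)| := abs_add_le _ _
    _ ≤ (|S.f q - S.f p - S.g p * ((q : ℝ) - p)| + |(S.g p - S.g q) * q|) +
        (|(S.b q : ℝ) - S.f q| + |(S.b p : ℝ) - S.f p|) :=
        add_le_add (abs_add_le _ _) (abs_sub _ _)
    _ ≤ _ := by linarith

/-- Localisation of `q` near `p v / u`. -/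
theorem loc2 {k l : ℤ} {p q : ℕ} (h : S.Sol k l p q) {u v : ℝ} (hu : 1 ≤ u) (huH : u ≤ S.H)
    (hv : |v| ≤ 133 * u)
    (huv : |((k : ℝ) + S.g p) * u - ((l : ℝ) + S.g q) * v| ≤ 36000 * S.L) :
    S.B * |u * q - p * v| ≤ 13000 * S.L := by
  have h1 := loc1 h
  have hH := S.H0
  have hP := S.P0
  have hB0 := S.hB0
  have hL := S.hL1
  have hBP := S.BP_le
  have hBP2 := S.hBP
  have hB1 := S.B_le
  set x : ℝ := (k : ℝ) + S.g p with hx
  set y : ℝ := (l : ℝ) + S.g q with hy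
  have e1 : x * (u * q - p * v) = (x * u - y * v) * q - v * (x * p - y * q) := by ring
  have e2 : S.H / 16 * |u * q - p * v| ≤ |x| * |u * q - p * v| :=
    mul_le_mul_of_nonneg_right h.xk (abs_nonneg _)
  have hq0 : (0 : ℝ) ≤ q := by linarith [h.q1]
  have e3 : |x| * |u * q - p * v| ≤ 36000 * S.L * (2 * S.P) +
      133 * u * (3 * (S.B * S.P ^ 2) + 2 * S.L) := by
    rw [← abs_mul, e1]
    refine (abs_sub _ _).trans (add_le_add ?_ ?_)
    · rw [abs_mul, abs_of_nonneg hq0]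
      exact mul_le_mul huv h.q2 hq0 (by linarith)
    · rw [abs_mul]
      exact mul_le_mul hv h1 (abs_nonneg _) (by linarith)
  have e4 : S.B * (S.H / 16 * |u * q - p * v|) ≤
      S.B * (36000 * S.L * (2 * S.P) + 133 * u * (3 * (S.B * S.P ^ 2) + 2 * S.L)) :=
    mul_le_mul_of_nonneg_left (e2.trans e3) hB0
  have e5 : S.B * (36000 * S.L * (2 * S.P) + 133 * u * (3 * (S.B * S.P ^ 2) + 2 * S.L)) =
      72000 * S.L * (S.B * S.P) + 133 * u * (3 * (S.B * S.P) ^ 2 + 2 * S.L * S.B) := by ring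
  have e6 : 72000 * S.L * (S.B * S.P) ≤ 72000 * S.L * (S.H / 512) :=
    mul_le_mul_of_nonneg_left hBP (by linarith)
  have e7 : 133 * u * (3 * (S.B * S.P) ^ 2 + 2 * S.L * S.B) ≤ 133 * S.H * (5 * S.L) := by
    apply mul_le_mul (by linarith) _ (by positivity) (by positivity)
    have : S.L * S.B ≤ S.L * 1 := mul_le_mul_of_nonneg_left hB1 (by linarith)
    linarith
  have e8 : S.H * (S.B * |u * q - p * v|) ≤ S.H * (13000 * S.L) := by
    have : 72000 * S.L * (S.H / 512) + 133 * S.H * (5 * S.L) ≤ S.H / 16 * (13000 * S.L) := by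
      have hHL : 0 ≤ S.H * S.L := by positivity
      nlinarith
    nlinarith
  exact le_of_mul_le_mul_left e8 hH

/-- All `(k, l)` of one block with the same short vector `(u, v)` have almost the same
`k u - l v`. -/
theorem window {k l k' l' : ℤ} {i : ℕ} {x y : ℕ × ℕ} (hx : x ∈ S.sol k l i)
    (hy : y ∈ S.sol k' l' i) {u v : ℤ} (hu : 1 ≤ u) (huW : u ≤ S.W) (hv : |v| ≤ 133 * u)
    (hxuv : |((k : ℝ) + S.g x.1) * u - ((l : ℝ) + S.g x.2) * v| ≤ 36000 * S.L)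
    (hyuv : |((k' : ℝ) + S.g y.1) * u - ((l' : ℝ) + S.g y.2) * v| ≤ 36000 * S.L) :
    |((k : ℝ) * u - l * v) - ((k' : ℝ) * u - l' * v)| ≤ 3600000 * S.L := by
  have fx := sol_facts hx
  have fy := sol_facts hy
  have hH := S.H0
  have hB0 := S.hB0
  have hL := S.hL1
  have hBH := S.hBH
  have hWH := S.W_le
  have huR : (1 : ℝ) ≤ u := by exact_mod_cast hu
  have huH : (u : ℝ) ≤ S.H := by
    have : (u : ℝ) ≤ (S.W : ℤ) := by exact_mod_cast huW
    push_cast at this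
    linarith
  have hvR : |(v : ℝ)| ≤ 133 * u := by
    have : ((|v| : ℤ) : ℝ) ≤ ((133 * u : ℤ) : ℝ) := by exact_mod_cast hv
    push_cast at this
    exact this
  have l1 := loc2 fx huR huH hvR hxuv
  have l2 := loc2 fy huR huH hvR hyuv
  have b1 : |(x.1 : ℝ) - y.1| ≤ S.H := by
    have h1 : ((|(x.1 : ℤ) - y.1| : ℤ) : ℝ) ≤ ((S.W : ℤ) : ℝ) := by
      exact_mod_cast (block_dist hx hy).le
    push_cast at h1
    linarith
  have g1 := S.lip x.1 y.1 fx.p1 fx.p2 fy.p1 fy.p2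
  have g2 := S.lip x.2 y.2 fx.q1 fx.q2 fy.q1 fy.q2
  have t1 : |(S.g x.1 - S.g y.1) * u| ≤ S.L := by
    rw [abs_mul, abs_of_nonneg (by linarith : (0 : ℝ) ≤ u)]
    calc |S.g x.1 - S.g y.1| * (u : ℝ) ≤ (S.B * S.H) * S.H := by
          apply mul_le_mul _ huH (by linarith) (by positivity)
          exact g1.trans (mul_le_mul_of_nonneg_left b1 hB0)
      _ = S.B * S.H ^ 2 := by ring
      _ ≤ S.L := hBH
  have t2 : |(S.g x.2 - S.g y.2) * v| ≤ 133 * (26133 * S.L) := by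
    rw [abs_mul]
    have e1 : S.B * (u * |(x.2 : ℝ) - y.2|) ≤ 26133 * S.L := by
      have e2 : (u : ℝ) * |(x.2 : ℝ) - y.2| ≤ |(u : ℝ) * x.2 - x.1 * v| +
          |(u : ℝ) * y.2 - y.1 * v| + |((x.1 : ℝ) - y.1) * v| := by
        rw [← abs_of_nonneg (by linarith : (0 : ℝ) ≤ u), ← abs_mul,
          abs_of_nonneg (by linarith : (0 : ℝ) ≤ u)]
        have : (u : ℝ) * ((x.2 : ℝ) - y.2) = ((u : ℝ) * x.2 - x.1 * v) -
          ((u : ℝ) * y.2 - y.1 * v) + ((x.1 : ℝ) - y.1) * v := by ring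
        rw [this]
        refine (abs_add_le _ _).trans ?_
        gcongr
        exact abs_sub _ _
      have e3 : |((x.1 : ℝ) - y.1) * v| ≤ 133 * S.H ^ 2 := by
        rw [abs_mul]
        calc |(x.1 : ℝ) - y.1| * |(v : ℝ)| ≤ S.H * (133 * S.H) := by
              apply mul_le_mul b1 _ (abs_nonneg _) hH.le
              linarith
          _ = _ := by ring
      calc S.B * (u * |(x.2 : ℝ) - y.2|)
          ≤ S.B * (|(u : ℝ) * x.2 - x.1 * v| + |(u : ℝ) * y.2 - y.1 * v| +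
              |((x.1 : ℝ) - y.1) * v|) := mul_le_mul_of_nonneg_left e2 hB0
        _ = S.B * |(u : ℝ) * x.2 - x.1 * v| + S.B * |(u : ℝ) * y.2 - y.1 * v| +
              S.B * |((x.1 : ℝ) - y.1) * v| := by ring
        _ ≤ 13000 * S.L + 13000 * S.L + 133 * S.L := by
              have := mul_le_mul_of_nonneg_left e3 hB0
              nlinarith
        _ = 26133 * S.L := by ring
    calc |S.g x.2 - S.g y.2| * |(v : ℝ)| ≤ (S.B * |(x.2 : ℝ) - y.2|) * (133 * u) :=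
          mul_le_mul g2 hvR (abs_nonneg _) (by positivity)
      _ = 133 * (S.B * (u * |(x.2 : ℝ) - y.2|)) := by ring
      _ ≤ _ := by linarith
  have e1 : ((k : ℝ) * u - l * v) - ((k' : ℝ) * u - l' * v) =
      (((k : ℝ) + S.g x.1) * u - ((l : ℝ) + S.g x.2) * v) -
      (((k' : ℝ) + S.g y.1) * u - ((l' : ℝ) + S.g y.2) * v) -
      ((S.g x.1 - S.g y.1) * u - (S.g x.2 - S.g y.2) * v) := by ring
  rw [e1]
  refine (abs_sub _ _).trans ?_
  refine (add_le_add (abs_sub _ _) (abs_sub _ _)).trans ?_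
  linarith

end Setup

end Pool.Agent.helper72.Cov
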