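import Pool.Agent.helper72.Cov.Smooth1

/-! Counting the near-coincidences block by block. -/

namespace Pool.Agent.helper72.Cov

open Finset

namespace Setup

variable {S : Setup}

/-- `(u, v)` is a short primitive vector for `(k, l)` in block `i`. -/
def Short (S : Setup) (k l : ℤ) (i : ℕ) (u v : ℤ) : Prop :=
  Int.gcd u v = 1 ∧ ∃ x ∈ S.sol k l i,
    |((k : ℝ) + S.g x.1) * u - ((l : ℝ) + S.g x.2) * v| ≤ 36000 * S.L

theorem exists_short {k l : ℤ} {i : ℕ} (h : 2 ≤ (S.sol k l i).card) :
    ∃ u v : ℤ, 1 ≤ u ∧ u ≤ S.W ∧ |v| ≤ 133 * u ∧ S.Short k l i u v ∧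
      ((S.sol k l i).card : ℝ) ≤ 2 * S.H / u := by
  classical
  obtain ⟨x, hx, x', hx', hxx⟩ := Finset.one_lt_card.mp h
  -- the predicate
  let A : ℕ → Prop := fun u => 1 ≤ u ∧ ∃ v : ℤ, |v| ≤ 133 * (u : ℤ) ∧
    |((k : ℝ) + S.g x.1) * (u : ℝ) - ((l : ℝ) + S.g x.2) * v| ≤ 36000 * S.L
  -- differences of solutions
  have hdiff : ∀ y ∈ S.sol k l i, ∀ z ∈ S.sol k l i, y.1 < z.1 → A (z.1 - y.1) := by
    intro y hy z hz hyz
    refine ⟨by omega, (z.2 : ℤ) - y.2, ?_, ?_⟩
    · have := ratio_bound (sol_facts hy) (sol_facts hz)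
      rw [abs_of_pos (by omega : (0 : ℤ) < (z.1 : ℤ) - y.1)] at this
      push_cast [Nat.cast_sub hyz.le]
      exact this
    · have := base_bound hx hy hz
      push_cast [Nat.cast_sub hyz.le]
      exact this
  have hne : ∀ y ∈ S.sol k l i, ∀ z ∈ S.sol k l i, y.1 = z.1 → y = z := by
    intro y hy z hz hyz
    have := ratio_bound (sol_facts hy) (sol_facts hz)
    rw [hyz, sub_self, abs_zero, mul_zero] at this
    have h2 : (z.2 : ℤ) - y.2 = 0 := abs_eq_zero.mp (le_antisymm this (abs_nonneg _))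
    exact Prod.ext hyz (by omega)
  have hexA : ∃ u, A u := by
    rcases lt_trichotomy x.1 x'.1 with h1 | h1 | h1
    · exact ⟨_, hdiff x hx x' hx' h1⟩
    · exact absurd (hne x hx x' hx' h1) hxx
    · exact ⟨_, hdiff x' hx' x hx h1⟩
  have hmin : ∀ y ∈ S.sol k l i, ∀ z ∈ S.sol k l i, y.1 < z.1 → Nat.find hexA ≤ z.1 - y.1 :=
    fun y hy z hz hyz => Nat.find_min' hexA (hdiff y hy z hz hyz)
  obtain ⟨hu1, v, hv, huv⟩ := Nat.find_spec hexA
  set u := Nat.find hexA with hudef
  have huW : u < S.W := by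
    rcases lt_trichotomy x.1 x'.1 with h1 | h1 | h1
    · have e1 := hmin x hx x' hx' h1
      have e2 := block_dist hx hx'
      rw [abs_lt] at e2
      omega
    · exact absurd (hne x hx x' hx' h1) hxx
    · have e1 := hmin x' hx' x hx h1
      have e2 := block_dist hx hx'
      rw [abs_lt] at e2
      omega
  refine ⟨u, v, by exact_mod_cast hu1, by exact_mod_cast huW.le, hv, ⟨?_, x, hx, by
    push_cast; exact huv⟩, ?_⟩
  · -- primitivity
    by_contra hg
    have hg0 : Int.gcd (u : ℤ) v ≠ 0 := by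
      intro h0
      rw [Int.gcd_eq_zero_iff] at h0
      have := h0.1
      omega
    set g := Int.gcd (u : ℤ) v with hgdef
    have hg2 : 2 ≤ g := by omega
    have hgu : (g : ℤ) ∣ (u : ℤ) := Int.gcd_dvd_left _ _
    have hgv : (g : ℤ) ∣ v := Int.gcd_dvd_right _ _
    obtain ⟨u', hu'⟩ := Int.natCast_dvd_natCast.mp hgu
    obtain ⟨v', hv'⟩ := hgv
    have hu'1 : 1 ≤ u' := by
      rcases Nat.eq_zero_or_pos u' with h0 | h0
      · rw [h0, mul_zero] at hu'; omega
      · exact h0
    have hA : A u' := by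
      refine ⟨hu'1, v', ?_, ?_⟩
      · rw [hv', abs_mul, abs_of_nonneg (by omega : (0 : ℤ) ≤ g), hu'] at hv
        push_cast at hv
        have hgpos : (0 : ℤ) < g := by omega
        have e1 : (g : ℤ) * |v'| ≤ g * (133 * u') := by linarith
        exact le_of_mul_le_mul_left e1 hgpos
      · have e1 : ((k : ℝ) + S.g x.1) * (u : ℝ) - ((l : ℝ) + S.g x.2) * v =
            g * (((k : ℝ) + S.g x.1) * (u' : ℝ) - ((l : ℝ) + S.g x.2) * v') := by
          rw [hu', hv']
          push_cast
          ring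
        rw [e1, abs_mul, abs_of_nonneg (Nat.cast_nonneg g)] at huv
        have hg1 : (1 : ℝ) ≤ g := by exact_mod_cast (by omega : 1 ≤ g)
        have e2 := abs_nonneg (((k : ℝ) + S.g x.1) * (u' : ℝ) - ((l : ℝ) + S.g x.2) * v')
        nlinarith
    have hle := Nat.find_min' hexA hA
    rw [← hudef, hu'] at hle
    nlinarith
  · -- the number of solutions
    have hinj : (S.sol k l i).card ≤ (Finset.range ((S.W - 1) / u + 1)).card := by
      apply Finset.card_le_card_of_injOn (fun y => (y.1 - i * S.W) / u)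
      · intro y hy
        have hy' : y ∈ S.sol k l i := hy
        rw [sol, Finset.mem_filter] at hy'
        have h1 := hy'.2.1
        have e1 := Nat.div_add_mod y.1 S.W
        have e3 := Nat.mod_lt y.1 S.W_pos
        rw [h1] at e1
        rw [Finset.coe_range, Set.mem_Iio]
        apply Nat.lt_succ_of_le
        apply Nat.div_le_div_right
        rw [mul_comm i]
        omega
      · intro y hy z hz hyz
        have hy2 : y ∈ S.sol k l i := hy
        have hz2 : z ∈ S.sol k l i := hz
        have hyw : i * S.W ≤ y.1 := by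
          have hy' := hy2
          rw [sol, Finset.mem_filter] at hy'
          have h1 := hy'.2.1
          rw [← h1]
          exact Nat.div_mul_le_self _ _
        have hzw : i * S.W ≤ z.1 := by
          have hz' := hz2
          rw [sol, Finset.mem_filter] at hz'
          have h1 := hz'.2.1
          rw [← h1]
          exact Nat.div_mul_le_self _ _
        simp only at hyz
        have e1 := Nat.div_add_mod (y.1 - i * S.W) u
        have e2 := Nat.div_add_mod (z.1 - i * S.W) u
        have e3 := Nat.mod_lt (y.1 - i * S.W) (by omega : u > 0)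
        have e4 := Nat.mod_lt (z.1 - i * S.W) (by omega : u > 0)
        rw [hyz] at e1
        rcases lt_trichotomy y.1 z.1 with h1 | h1 | h1
        · have := hmin y hy2 z hz2 h1
          omega
        · exact hne y hy2 z hz2 h1
        · have := hmin z hz2 y hy2 h1
          omega
    rw [Finset.card_range] at hinj
    have h1 : (((S.W - 1) / u + 1 : ℕ) : ℝ) ≤ 2 * S.H / u := by
      have hu0 : (0 : ℝ) < u := by exact_mod_cast hu1
      have e1 : (((S.W - 1) / u : ℕ) : ℝ) ≤ ((S.W - 1 : ℕ) : ℝ) / u := Nat.cast_div_le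
      have e2 : ((S.W - 1 : ℕ) : ℝ) ≤ S.W := by exact_mod_cast Nat.sub_le _ _
      have e3 := S.W_le
      have e4 : (u : ℝ) ≤ S.H := by
        have : (u : ℝ) ≤ S.W := by exact_mod_cast huW.le
        linarith
      push_cast
      calc (((S.W - 1) / u : ℕ) : ℝ) + 1 ≤ S.H / u + S.H / u := by
            apply add_le_add
            · refine e1.trans ?_
              gcongr
              linarith
            · rw [le_div_iff₀ hu0]
              linarith
        _ = 2 * S.H / u := by ring
    have h2 : ((S.sol k l i).card : ℝ) ≤ (((S.W - 1) / u + 1 : ℕ) : ℝ) := by exact_mod_cast hinj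
    refine h2.trans ?_
    push_cast at h1 ⊢
    exact h1

/-- Pairs `(k, l)` with `k u - l v` in a short window. -/
theorem card_window {u v : ℤ} (hu : 1 ≤ u) (hg : Int.gcd u v = 1) {R M : ℝ} (hR : 0 ≤ R)
    (hM : 0 ≤ M) (K : Finset (ℤ × ℤ)) (hK : ∀ x ∈ K, |(x.2 : ℝ)| ≤ M)
    (hw : ∀ x ∈ K, ∀ y ∈ K,
      |((x.1 : ℝ) * u - x.2 * v) - ((y.1 : ℝ) * u - y.2 * v)| ≤ R) :
    (K.card : ℝ) ≤ (2 * R + 1) * (2 * M / u + 2) := by
  classical
  rcases K.eq_empty_or_nonempty with rfl | ⟨x₀, hx₀⟩
  · simp only [Finset.card_empty, Nat.cast_zero]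
    have : (0 : ℝ) < u := by exact_mod_cast (by omega : 0 < u)
    positivity
  have huR : (0 : ℝ) < u := by exact_mod_cast (by omega : 0 < u)
  set r₀ : ℝ := (x₀.1 : ℝ) * u - x₀.2 * v with hr₀
  set J₁ : Finset ℤ := K.image (fun x => x.1 * u - x.2 * v) with hJ₁
  set J₂ : Finset ℤ := K.image (fun x => x.2 / u) with hJ₂
  have hinj : K.card ≤ (J₁ ×ˢ J₂).card := by
    apply Finset.card_le_card_of_injOn (fun x => (x.1 * u - x.2 * v, x.2 / u))
    · intro x hx
      rw [Finset.coe_product, Set.mem_prod]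
      exact ⟨Finset.mem_coe.mpr (Finset.mem_image_of_mem _ hx),
        Finset.mem_coe.mpr (Finset.mem_image_of_mem (fun x : ℤ × ℤ => x.2 / u) hx)⟩
    · intro x hx y hy hxy
      simp only [Prod.mk.injEq] at hxy
      obtain ⟨h1, h2⟩ := hxy
      have h3 : u ∣ (x.2 - y.2) := by
        have : u ∣ (x.2 - y.2) * v := ⟨x.1 - y.1, by linarith⟩
        exact Int.dvd_of_dvd_mul_left_of_gcd_one this (by exact_mod_cast hg)
      have e1 := Int.mul_ediv_add_emod x.2 u
      have e2 := Int.mul_ediv_add_emod y.2 u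
      have e3 : x.2 % u = y.2 % u :=
        Int.emod_eq_emod_iff_emod_sub_eq_zero.mpr (Int.emod_eq_zero_of_dvd h3)
      have e4 : x.2 = y.2 := by rw [← e1, ← e2, h2, e3]
      have e5 : x.1 * u = y.1 * u := by rw [e4] at h1; linarith
      have e6 : x.1 = y.1 := mul_right_cancel₀ (by omega : u ≠ 0) e5
      exact Prod.ext e6 e4
  have hc1 : (J₁.card : ℝ) ≤ 2 * R + 1 := by
    have := card_int_le (A := r₀ - R) (B := r₀ + R) (p := 1) one_pos (by linarith) J₁ (by
      intro j hj
      rw [hJ₁, Finset.mem_image] at hj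
      obtain ⟨x, hx, rfl⟩ := hj
      have h1 := hw x hx x₀ hx₀
      rw [← hr₀, abs_le] at h1
      push_cast
      constructor <;> linarith)
    linarith
  have hc2 : (J₂.card : ℝ) ≤ 2 * M / u + 2 := by
    have := card_int_le (A := -M - u) (B := M) (p := u) huR (by linarith) J₂ (by
      intro j hj
      rw [hJ₂, Finset.mem_image] at hj
      obtain ⟨x, hx, rfl⟩ := hj
      have h1 := hK x hx
      rw [abs_le] at h1
      have e1 : u * (x.2 / u) + x.2 % u = x.2 := Int.mul_ediv_add_emod x.2 u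
      have e2 := Int.emod_nonneg x.2 (by omega : u ≠ 0)
      have e3 := Int.emod_lt_of_pos x.2 (by omega : 0 < u)
      have e4 : (u : ℝ) * ((x.2 / u : ℤ) : ℝ) + ((x.2 % u : ℤ) : ℝ) = x.2 := by exact_mod_cast e1
      have e5 : (0 : ℝ) ≤ ((x.2 % u : ℤ) : ℝ) := by exact_mod_cast e2
      have e6 : ((x.2 % u : ℤ) : ℝ) ≤ u := by exact_mod_cast e3.le
      constructor <;> linarith)
    calc (J₂.card : ℝ) ≤ (M - (-M - u)) / u + 1 := this
      _ = 2 * M / u + 2 := by field_simp; ring
  calc (K.card : ℝ) ≤ ((J₁ ×ˢ J₂).card : ℝ) := by exact_mod_cast hinj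
    _ = (J₁.card : ℝ) * J₂.card := by rw [Finset.card_product]; push_cast; ring
    _ ≤ (2 * R + 1) * (2 * M / u + 2) := by
      apply mul_le_mul hc1 hc2 (Nat.cast_nonneg _) (by positivity)

/-- The range of the coefficients `k`. -/
noncomputable def KK (S : Setup) : Finset ℤ := Finset.Icc (-⌊3 * S.H⌋) ⌊3 * S.H⌋

theorem mem_KK {k : ℤ} : k ∈ S.KK ↔ |(k : ℝ)| ≤ 3 * S.H := by
  rw [KK, Finset.mem_Icc, abs_le]
  constructor
  · rintro ⟨h1, h2⟩
    refine ⟨?_, Int.le_floor.mp h2⟩
    have : -k ≤ ⌊3 * S.H⌋ := by linarith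
    have := Int.le_floor.mp this
    push_cast at this
    linarith
  · rintro ⟨h1, h2⟩
    refine ⟨?_, Int.le_floor.mpr h2⟩
    have : -k ≤ ⌊3 * S.H⌋ := Int.le_floor.mpr (by push_cast; linarith)
    linarith

theorem card_KK : (S.KK.card : ℝ) ≤ 7 * S.H := by
  have := card_int_le (A := -(3 * S.H)) (B := 3 * S.H) (p := 1) one_pos (by linarith [S.H0]) S.KK (by
    intro j hj
    have h := mem_KK.mp hj
    rw [abs_le] at h
    constructor <;> linarith)
  linarith [S.hH]

/-- The range of the block index. -/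
noncomputable def II (S : Setup) : Finset ℕ := Finset.range (⌊2 * S.P⌋₊ / S.W + 1)

theorem card_II : (S.II.card : ℝ) ≤ 5 * S.P / S.H := by
  rw [II, Finset.card_range]
  have hH := S.H0
  have hP := S.P0
  have hHP := S.hHP
  have h1 : ((⌊2 * S.P⌋₊ / S.W : ℕ) : ℝ) ≤ (⌊2 * S.P⌋₊ : ℝ) / S.W := Nat.cast_div_le
  have h2 : (⌊2 * S.P⌋₊ : ℝ) ≤ 2 * S.P := Nat.floor_le (by linarith)
  have h3 := S.W_ge
  have h4 : (0 : ℝ) < S.W := by linarith
  push_cast
  rw [le_div_iff₀ hH]
  have h5 : (⌊2 * S.P⌋₊ : ℝ) / S.W ≤ 4 * S.P / S.H := by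
    rw [div_le_div_iff₀ h4 hH]
    calc (⌊2 * S.P⌋₊ : ℝ) * S.H ≤ (2 * S.P) * (2 * S.W) := by
          apply mul_le_mul h2 (by linarith) hH.le (by linarith)
      _ = 4 * S.P * S.W := by ring
  have h6 : (4 * S.P / S.H) * S.H = 4 * S.P := by field_simp
  have h7 : ((⌊2 * S.P⌋₊ / S.W : ℕ) : ℝ) * S.H ≤ 4 * S.P := by
    rw [← h6]
    exact mul_le_mul_of_nonneg_right (h1.trans h5) hH.le
  linarith

theorem sol_subset_zero {k l : ℤ} {i : ℕ} (h : (S.sol k l i).Nonempty) :
    k ∈ S.KK ∧ l ∈ S.KK ∧ i ∈ S.II := by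
  obtain ⟨x, hx⟩ := h
  have hx' := hx
  rw [sol, Finset.mem_filter] at hx'
  obtain ⟨_, h1, _, _, h2, h3, _⟩ := hx'
  refine ⟨mem_KK.mpr h2, mem_KK.mpr h3, ?_⟩
  rw [II, Finset.mem_range, ← h1]
  have f := (sol_facts hx).p2
  apply Nat.lt_succ_of_le
  apply Nat.div_le_div_right
  exact Nat.le_floor f

open Classical in
/-- The number of `(k, l)` with a given short vector. -/
theorem card_short {i : ℕ} {u v : ℤ} (hu : 1 ≤ u) (huW : u ≤ S.W) (hv : |v| ≤ 133 * u) :
    (((S.KK ×ˢ S.KK).filter (fun x => S.Short x.1 x.2 i u v)).card : ℝ) ≤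
      60000000 * (S.L * S.H) / u := by
  have hH := S.H0
  have hL := S.hL1
  have huR : (1 : ℝ) ≤ u := by exact_mod_cast hu
  have huH : (u : ℝ) ≤ S.H := by
    have h1 : (u : ℝ) ≤ (S.W : ℤ) := by exact_mod_cast huW
    push_cast at h1
    linarith [S.W_le]
  by_cases hg : Int.gcd u v = 1
  · have := card_window hu hg (R := 3600000 * S.L) (M := 3 * S.H) (by positivity) (by positivity)
      ((S.KK ×ˢ S.KK).filter (fun x => S.Short x.1 x.2 i u v)) (by
        intro x hx
        rw [Finset.mem_filter, Finset.mem_product] at hx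
        exact mem_KK.mp hx.1.2) (by
        intro x hx y hy
        rw [Finset.mem_filter] at hx hy
        obtain ⟨_, _, x', hx', hx''⟩ := hx
        obtain ⟨_, _, y', hy', hy''⟩ := hy
        exact window hx' hy' hu huW hv hx'' hy'')
    refine this.trans ?_
    have e1 : 2 * (3 * S.H) / u + 2 ≤ 8 * S.H / u := by
      rw [div_add' _ _ _ (by linarith : (u : ℝ) ≠ 0)]
      gcongr
      linarith
    have e2 : 2 * (3600000 * S.L) + 1 ≤ 7500000 * S.L := by linarith
    calc (2 * (3600000 * S.L) + 1) * (2 * (3 * S.H) / u + 2) ≤ (7500000 * S.L) * (8 * S.H / u) := by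
          apply mul_le_mul e2 e1 (by positivity) (by positivity)
      _ = 60000000 * (S.L * S.H) / u := by ring
  · have : (S.KK ×ˢ S.KK).filter (fun x => S.Short x.1 x.2 i u v) = ∅ := by
      rw [Finset.filter_eq_empty_iff]
      intro x _ hx
      exact hg hx.1
    rw [this, Finset.card_empty]
    push_cast
    positivity

open Classical in
theorem sol_card_le (k l : ℤ) (i : ℕ) :
    ((S.sol k l i).card : ℝ) ≤ 1 + ∑ u ∈ Finset.Icc 1 S.W,
      ∑ v ∈ Finset.Icc (-(133 * (u : ℤ))) (133 * u),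
        if S.Short k l i u v then 2 * S.H / u else 0 := by
  have hH := S.H0
  have hnn : ∀ u ∈ Finset.Icc 1 S.W, 0 ≤ ∑ v ∈ Finset.Icc (-(133 * (u : ℤ))) (133 * u),
        if S.Short k l i u v then 2 * S.H / (u : ℝ) else 0 := by
    intro u _
    apply Finset.sum_nonneg
    intro v _
    split_ifs
    · positivity
    · exact le_rfl
  by_cases h : 2 ≤ (S.sol k l i).card
  · obtain ⟨u, v, hu1, huW, hv, hs, hc⟩ := exists_short h
    obtain ⟨u', rfl⟩ := Int.eq_ofNat_of_zero_le (by omega : 0 ≤ u)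
    have hmem : u' ∈ Finset.Icc 1 S.W := by
      rw [Finset.mem_Icc]
      constructor
      · exact_mod_cast hu1
      · exact_mod_cast huW
    have h1 : ∑ v ∈ Finset.Icc (-(133 * (u' : ℤ))) (133 * u'),
        (if S.Short k l i u' v then 2 * S.H / (u' : ℝ) else 0) ≤ ∑ u ∈ Finset.Icc 1 S.W,
      ∑ v ∈ Finset.Icc (-(133 * (u : ℤ))) (133 * u),
        if S.Short k l i u v then 2 * S.H / (u : ℝ) else 0 :=
      Finset.single_le_sum (f := fun u : ℕ => ∑ v ∈ Finset.Icc (-(133 * (u : ℤ))) (133 * u),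
        if S.Short k l i u v then 2 * S.H / (u : ℝ) else 0) hnn hmem
    have hvmem : v ∈ Finset.Icc (-(133 * (u' : ℤ))) (133 * u') := by
      rw [Finset.mem_Icc, ← abs_le]
      exact hv
    have h2 : (if S.Short k l i u' v then 2 * S.H / (u' : ℝ) else 0) ≤
        ∑ v ∈ Finset.Icc (-(133 * (u' : ℤ))) (133 * u'),
        (if S.Short k l i u' v then 2 * S.H / (u' : ℝ) else 0) := by
      apply Finset.single_le_sum (f := fun v : ℤ =>
        if S.Short k l i u' v then 2 * S.H / (u' : ℝ) else 0) _ hvmem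
      intro v _
      split_ifs
      · positivity
      · exact le_rfl
    rw [if_pos hs] at h2
    push_cast at hc
    linarith
  · push Not at h
    have h1 : ((S.sol k l i).card : ℝ) ≤ 1 := by exact_mod_cast Nat.lt_succ_iff.mp h
    have h2 := Finset.sum_nonneg hnn
    linarith

/-- **The total number of coincidences.** -/
theorem total_le : (∑ k ∈ S.KK, ∑ l ∈ S.KK, ∑ i ∈ S.II, ((S.sol k l i).card : ℝ)) ≤
    10 ^ 12 * (S.L * (S.P * S.H) * (1 + Real.log S.H)) := by
  classical
  have hH := S.H0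
  have hP := S.P0
  have hL := S.hL1
  have hH1 := S.hH
  have hlog : 0 ≤ Real.log S.H := Real.log_nonneg (by linarith)
  have hW0 := S.W_pos
  calc (∑ k ∈ S.KK, ∑ l ∈ S.KK, ∑ i ∈ S.II, ((S.sol k l i).card : ℝ))
      ≤ ∑ k ∈ S.KK, ∑ l ∈ S.KK, ∑ i ∈ S.II, (1 + ∑ u ∈ Finset.Icc 1 S.W,
      ∑ v ∈ Finset.Icc (-(133 * (u : ℤ))) (133 * u),
        if S.Short k l i u v then 2 * S.H / (u : ℝ) else 0) :=
        Finset.sum_le_sum fun k _ => Finset.sum_le_sum fun l _ => Finset.sum_le_sum fun i _ =>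
          sol_card_le k l i
    _ = (S.KK.card * (S.KK.card * S.II.card) : ℝ) + ∑ i ∈ S.II, ∑ u ∈ Finset.Icc 1 S.W,
      ∑ v ∈ Finset.Icc (-(133 * (u : ℤ))) (133 * u), ∑ x ∈ S.KK ×ˢ S.KK,
        (if S.Short x.1 x.2 i u v then 2 * S.H / (u : ℝ) else 0) := by
        simp only [Finset.sum_add_distrib, Finset.sum_const, nsmul_eq_mul, mul_one]
        congr 1
        rw [← Finset.sum_product' S.KK S.KK (fun k l => ∑ i ∈ S.II, ∑ u ∈ Finset.Icc 1 S.W,
          ∑ v ∈ Finset.Icc (-(133 * (u : ℤ))) (133 * u),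
            if S.Short k l i u v then 2 * S.H / (u : ℝ) else 0)]
        rw [Finset.sum_comm]
        refine Finset.sum_congr rfl fun i _ => ?_
        rw [Finset.sum_comm]
        refine Finset.sum_congr rfl fun u _ => ?_
        rw [Finset.sum_comm]
    _ ≤ (S.KK.card * (S.KK.card * S.II.card) : ℝ) + ∑ i ∈ S.II, ∑ u ∈ Finset.Icc 1 S.W,
      ∑ v ∈ Finset.Icc (-(133 * (u : ℤ))) (133 * u),
        (60000000 * (S.L * S.H) / u) * (2 * S.H / (u : ℝ)) := by
        gcongr with i hi u hu v hv
        rw [← Finset.sum_filter, Finset.sum_const, nsmul_eq_mul]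
        rw [Finset.mem_Icc] at hu
        apply mul_le_mul_of_nonneg_right _ (by positivity)
        have := card_short (S := S) (i := i) (u := u) (v := v) (by exact_mod_cast hu.1)
          (by exact_mod_cast hu.2) (by rw [abs_le]; exact Finset.mem_Icc.mp hv)
        push_cast at this
        exact this
    _ ≤ (S.KK.card * (S.KK.card * S.II.card) : ℝ) + ∑ i ∈ S.II, ∑ u ∈ Finset.Icc 1 S.W,
        (267 * 120000000 * (S.L * S.H ^ 2)) * (1 / (u : ℝ)) := by
        gcongr with i hi u hu
        rw [Finset.mem_Icc] at hu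
        have hu0 : (0 : ℝ) < u := by exact_mod_cast hu.1
        have hu1 : (1 : ℝ) ≤ u := by exact_mod_cast hu.1
        rw [Finset.sum_const, nsmul_eq_mul, Int.card_Icc]
        have e1 : (((133 * (u : ℤ) + 1 - -(133 * u)).toNat : ℕ) : ℝ) ≤ 267 * u := by
          have : ((133 * (u : ℤ) + 1 - -(133 * u)).toNat : ℤ) ≤ 267 * u := by
            have := hu.1
            omega
          exact_mod_cast this
        calc (((133 * (u : ℤ) + 1 - -(133 * u)).toNat : ℕ) : ℝ) *
              ((60000000 * (S.L * S.H) / u) * (2 * S.H / (u : ℝ)))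
            ≤ (267 * u) * ((60000000 * (S.L * S.H) / u) * (2 * S.H / (u : ℝ))) := by
              apply mul_le_mul_of_nonneg_right e1 (by positivity)
          _ = (267 * 120000000 * (S.L * S.H ^ 2)) * (1 / (u : ℝ)) := by
              field_simp
              ring
    _ ≤ (7 * S.H) * ((7 * S.H) * (5 * S.P / S.H)) + (5 * S.P / S.H) *
          ((267 * 120000000 * (S.L * S.H ^ 2)) * (1 + Real.log S.H)) := by
        have hKK := card_KK (S := S)
        have hII := card_II (S := S)
        apply add_le_add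
        · apply mul_le_mul hKK _ (by positivity) (by positivity)
          exact mul_le_mul hKK hII (by positivity) (by positivity)
        · rw [Finset.sum_const, nsmul_eq_mul]
          apply mul_le_mul hII _ _ (by positivity)
          · rw [← Finset.mul_sum]
            apply mul_le_mul_of_nonneg_left _ (by positivity)
            have h := harmonic_le_one_add_log S.W
            rw [harmonic_eq_sum_Icc] at h
            push_cast at h
            have e1 : Real.log S.W ≤ Real.log S.H :=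
              Real.log_le_log (by exact_mod_cast hW0) S.W_le
            have e2 : ∑ u ∈ Finset.Icc 1 S.W, 1 / (u : ℝ) ≤ 1 + Real.log S.W := by
              simpa [one_div] using h
            linarith
          · apply Finset.sum_nonneg
            intro u _
            positivity
    _ ≤ 10 ^ 12 * (S.L * (S.P * S.H) * (1 + Real.log S.H)) := by
        have e1 : (7 * S.H) * ((7 * S.H) * (5 * S.P / S.H)) = 245 * (S.P * S.H) := by
          field_simp; ring
        have e2 : (5 * S.P / S.H) * ((267 * 120000000 * (S.L * S.H ^ 2)) * (1 + Real.log S.H)) =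
            160200000000 * (S.L * (S.P * S.H) * (1 + Real.log S.H)) := by
          field_simp; ring
        rw [e1, e2]
        have e3 : S.P * S.H ≤ S.L * (S.P * S.H) * (1 + Real.log S.H) := by
          have h1 : 0 ≤ S.P * S.H := by positivity
          have h2 : 1 ≤ S.L * (1 + Real.log S.H) := by nlinarith
          nlinarith
        nlinarith

end Setup

end Pool.Agent.helper72.Cov
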