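import Pool.Agent.helper72.Cov.Smooth2

/-! The union of progressions whose residues follow a smooth function. -/

namespace Pool.Agent.helper72.Cov

open Finset

namespace Setup

variable {S : Setup}

/-- The integers of the progressions. -/
def val (S : Setup) (x : ℕ × ℤ) : ℤ := x.2 * x.1 + S.b x.1

/-- The flags of `p`. -/
noncomputable def flp (S : Setup) (N : ℕ) (p : ℕ) : Finset ℤ :=
  S.KK.filter fun k => 1 ≤ k * p + S.b p ∧ k * p + S.b p ≤ N ∧ S.H / 16 ≤ |(k : ℝ) + S.g p|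

/-- All flags. -/
noncomputable def Fl (S : Setup) (N : ℕ) : Finset (ℕ × ℤ) :=
  (S.Q ×ˢ S.KK).filter fun x => x.2 ∈ S.flp N x.1

theorem flp_card {N : ℕ} (hN : (N : ℝ) = S.P * S.H) {p : ℕ} (hp : p ∈ S.Q) :
    S.H / 4 ≤ ((S.flp N p).card : ℝ) := by
  classical
  have hH := S.H0
  have hP := S.P0
  have hH1 := S.hH
  have hHP := S.hHP
  have hLH := S.hLH
  obtain ⟨hp1, hp2⟩ := S.hQ p hp
  have hp0 : (0 : ℝ) < p := by linarith
  have hbp := S.hb p hp
  have hfp := S.hf p hp1 hp2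
  have hb : |(S.b p : ℝ)| ≤ S.P * S.H + S.L := by
    have : (S.b p : ℝ) = S.f p + (S.b p - S.f p) := by ring
    rw [this]
    exact (abs_add_le _ _).trans (add_le_add hfp hbp)
  rw [abs_le] at hb
  set I : Finset ℤ := Finset.Icc ⌈(1 - (S.b p : ℝ)) / p⌉ ⌊((N : ℝ) - S.b p) / p⌋ with hI
  have hImem : ∀ k ∈ I, 1 ≤ (k : ℝ) * p + S.b p ∧ (k : ℝ) * p + S.b p ≤ N := by
    intro k hk
    rw [hI, Finset.mem_Icc, Int.ceil_le, Int.le_floor, div_le_iff₀ hp0, le_div_iff₀ hp0] at hk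
    constructor <;> linarith [hk.1, hk.2]
  have hIcard : S.H / 2 - 2 ≤ (I.card : ℝ) := by
    have h1 : (⌊((N : ℝ) - S.b p) / p⌋ + 1 - ⌈(1 - (S.b p : ℝ)) / p⌉ : ℤ) ≤ (I.card : ℤ) := by
      rw [hI, Int.card_Icc]
      exact Int.self_le_toNat _
    have h2 : ((⌊((N : ℝ) - S.b p) / p⌋ : ℝ) + 1 - (⌈(1 - (S.b p : ℝ)) / p⌉ : ℝ)) ≤ (I.card : ℝ) := by
      exact_mod_cast h1
    have h3 := Int.lt_floor_add_one (((N : ℝ) - S.b p) / p)
    have h4 := Int.ceil_lt_add_one ((1 - (S.b p : ℝ)) / p)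
    have h5 : ((N : ℝ) - S.b p) / p - (1 - (S.b p : ℝ)) / p = ((N : ℝ) - 1) / p := by
      rw [← sub_div]; congr 1; ring
    have h6 : S.H / 2 - 1 ≤ ((N : ℝ) - 1) / p := by
      rw [le_div_iff₀ hp0, hN]
      have : (S.H / 2 - 1) * p ≤ (S.H / 2 - 1) * (2 * S.P) :=
        mul_le_mul_of_nonneg_left hp2 (by linarith)
      nlinarith
    linarith
  set J : Finset ℤ := I.filter (fun k => |(k : ℝ) + S.g p| < S.H / 16) with hJ
  have hJcard : (J.card : ℝ) ≤ S.H / 8 + 1 := by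
    have := card_int_le (A := -(S.H / 16) - S.g p) (B := S.H / 16 - S.g p) (p := 1) one_pos
      (by linarith) J (by
        intro k hk
        rw [hJ, Finset.mem_filter, abs_lt] at hk
        constructor <;> linarith [hk.2.1, hk.2.2])
    linarith
  have hsub : I \ J ⊆ S.flp N p := by
    intro k hk
    rw [Finset.mem_sdiff] at hk
    obtain ⟨hk1, hk2⟩ := hk
    obtain ⟨h1, h2⟩ := hImem k hk1
    rw [flp, Finset.mem_filter]
    refine ⟨mem_KK.mpr ?_, by exact_mod_cast h1, by exact_mod_cast h2, ?_⟩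
    · have hL : S.L ≤ S.P := by linarith [S.hL1]
      have hPH : 0 < S.P * S.H := by positivity
      have e1 : |(k : ℝ)| * S.P ≤ (3 * S.H) * S.P := by
        have e2 : |(k : ℝ)| * S.P ≤ |(k : ℝ)| * p := mul_le_mul_of_nonneg_left hp1 (abs_nonneg _)
        have e3 : |(k : ℝ)| * p = |(k : ℝ) * p| := by rw [abs_mul, abs_of_pos hp0]
        have e4 : |(k : ℝ) * p| ≤ 2 * (S.P * S.H) + S.L := by
          rw [abs_le]
          constructor <;> linarith
        have e5 : S.L ≤ S.P * S.H := by nlinarith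
        linarith
      exact le_of_mul_le_mul_right e1 hP
    · by_contra hcon
      push Not at hcon
      exact hk2 (by rw [hJ, Finset.mem_filter]; exact ⟨hk1, hcon⟩)
  have hcard : (I.card : ℝ) ≤ (S.flp N p).card + J.card := by
    have h1 := Finset.card_le_card hsub
    have h2 : I.card ≤ (I \ J).card + J.card := by
      have := Finset.card_sdiff_add_card I J
      calc I.card ≤ (I ∪ J).card := Finset.card_le_card Finset.subset_union_left
        _ = (I \ J).card + J.card := this.symm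
    exact_mod_cast h2.trans (Nat.add_le_add_right h1 _)
  linarith

theorem Fl_card {N : ℕ} (hN : (N : ℝ) = S.P * S.H) :
    (S.Q.card : ℝ) * (S.H / 4) ≤ ((S.Fl N).card : ℝ) := by
  classical
  have h1 : (S.Fl N).card = ∑ p ∈ S.Q, (S.flp N p).card := by
    rw [Fl, Finset.card_eq_sum_card_fiberwise (f := fun x => x.1) (t := S.Q)]
    · apply Finset.sum_congr rfl
      intro p hp
      apply Finset.card_bij (fun x _ => x.2)
      · intro x hx
        rw [Finset.mem_filter, Finset.mem_filter] at hx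
        rw [← hx.2]
        exact hx.1.2
      · intro x hx y hy hxy
        rw [Finset.mem_filter] at hx hy
        exact Prod.ext (hx.2.trans hy.2.symm) hxy
      · intro k hk
        refine ⟨(p, k), ?_, rfl⟩
        rw [Finset.mem_filter, Finset.mem_filter, Finset.mem_product]
        have hk' := hk
        rw [flp, Finset.mem_filter] at hk'
        exact ⟨⟨⟨hp, hk'.1⟩, hk⟩, rfl⟩
    · intro x hx
      have hx' : x ∈ (S.Q ×ˢ S.KK).filter fun x => x.2 ∈ S.flp N x.1 := hx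
      rw [Finset.mem_filter, Finset.mem_product] at hx'
      exact hx'.1.1
  rw [h1]
  push_cast
  rw [← nsmul_eq_mul, ← Finset.sum_const]
  exact Finset.sum_le_sum fun p hp => flp_card hN hp

theorem coll_le (N : ℕ) :
    ((((S.Fl N) ×ˢ (S.Fl N)).filter (fun z => S.val z.1 = S.val z.2)).card : ℝ) ≤
      ∑ k ∈ S.KK, ∑ l ∈ S.KK, ∑ i ∈ S.II, ((S.sol k l i).card : ℝ) := by
  classical
  set C := ((S.Fl N) ×ˢ (S.Fl N)).filter (fun z => S.val z.1 = S.val z.2) with hC
  have hmemC : ∀ z ∈ C, z.1.1 ∈ S.Q ∧ z.2.1 ∈ S.Q ∧ z.1.2 ∈ S.flp N z.1.1 ∧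
      z.2.2 ∈ S.flp N z.2.1 ∧ S.val z.1 = S.val z.2 := by
    intro z hz
    rw [hC, Finset.mem_filter, Finset.mem_product, Fl, Finset.mem_filter, Finset.mem_filter,
      Finset.mem_product, Finset.mem_product] at hz
    exact ⟨hz.1.1.1.1, hz.1.2.1.1, hz.1.1.2, hz.1.2.2, hz.2⟩
  have hsol : ∀ z ∈ C, (z.1.1, z.2.1) ∈ S.sol z.1.2 z.2.2 (z.1.1 / S.W) := by
    intro z hz
    obtain ⟨h1, h2, h3, h4, h5⟩ := hmemC z hz
    rw [flp, Finset.mem_filter] at h3 h4
    rw [sol, Finset.mem_filter, Finset.mem_product]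
    exact ⟨⟨h1, h2⟩, rfl, h3.2.2.2, h4.2.2.2, mem_KK.mp h3.1, mem_KK.mp h4.1, h5⟩
  have h1 : C.card ≤ ∑ t ∈ S.KK ×ˢ (S.KK ×ˢ S.II), (S.sol t.1 t.2.1 t.2.2).card := by
    rw [Finset.card_eq_sum_card_fiberwise (f := fun z => (z.1.2, z.2.2, z.1.1 / S.W))
      (t := S.KK ×ˢ (S.KK ×ˢ S.II))]
    · apply Finset.sum_le_sum
      intro t _
      apply Finset.card_le_card_of_injOn (fun z => (z.1.1, z.2.1))
      · intro z hz
        have hz' : z ∈ C.filter (fun z => (z.1.2, z.2.2, z.1.1 / S.W) = t) := hz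
        rw [Finset.mem_filter] at hz'
        have := hsol z hz'.1
        rw [← hz'.2]
        exact this
      · intro z hz w hw hzw
        have hz' : z ∈ C.filter (fun z => (z.1.2, z.2.2, z.1.1 / S.W) = t) := hz
        have hw' : w ∈ C.filter (fun z => (z.1.2, z.2.2, z.1.1 / S.W) = t) := hw
        rw [Finset.mem_filter] at hz' hw'
        have e1 := hz'.2.trans hw'.2.symm
        simp only [Prod.mk.injEq] at e1 hzw
        exact Prod.ext (Prod.ext hzw.1 e1.1) (Prod.ext hzw.2 e1.2.1)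
    · intro z hz
      have hz' : z ∈ C := hz
      have := sol_subset_zero ⟨_, hsol z hz'⟩
      exact Finset.mem_coe.mpr (Finset.mem_product.mpr ⟨this.1, Finset.mem_product.mpr this.2⟩)
  calc (C.card : ℝ) ≤ ((∑ t ∈ S.KK ×ˢ (S.KK ×ˢ S.II), (S.sol t.1 t.2.1 t.2.2).card : ℕ) : ℝ) := by
        exact_mod_cast h1
    _ = ∑ k ∈ S.KK, ∑ l ∈ S.KK, ∑ i ∈ S.II, ((S.sol k l i).card : ℝ) := by
        push_cast
        rw [Finset.sum_product]
        refine Finset.sum_congr rfl fun k _ => ?_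
        rw [Finset.sum_product]

/-- The number of integers covered by the flags. -/
theorem image_ge {N : ℕ} (hN : (N : ℝ) = S.P * S.H) :
    ((S.Q.card : ℝ)) ^ 2 * S.H ≤
      (16 * 10 ^ 12 * (S.L * S.P * (1 + Real.log S.H))) * (((S.Fl N).image S.val).card : ℝ) := by
  classical
  have hH := S.H0
  have hP := S.P0
  have hL := S.hL1
  have hH1 := S.hH
  have hlog : 0 ≤ Real.log S.H := Real.log_nonneg (by linarith)
  have h1 := card_sq_le (S.Fl N) S.val
  have h2 := coll_le (S := S) N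
  have h3 := total_le (S := S)
  have h4 := Fl_card hN
  have h5 : ((S.Fl N).card : ℝ) ^ 2 ≤ (((S.Fl N).image S.val).card : ℝ) *
      ((((S.Fl N) ×ˢ (S.Fl N)).filter (fun z => S.val z.1 = S.val z.2)).card : ℝ) := by
    exact_mod_cast h1
  have h6 : ((S.Q.card : ℝ) * (S.H / 4)) ^ 2 ≤ ((S.Fl N).card : ℝ) ^ 2 :=
    pow_le_pow_left₀ (by positivity) h4 2
  have h7 : ((S.Q.card : ℝ) * (S.H / 4)) ^ 2 ≤ (((S.Fl N).image S.val).card : ℝ) *
      (10 ^ 12 * (S.L * (S.P * S.H) * (1 + Real.log S.H))) :=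
    h6.trans (h5.trans (mul_le_mul_of_nonneg_left (h2.trans h3) (Nat.cast_nonneg _)))
  have h8 : S.H * ((S.Q.card : ℝ) ^ 2 * S.H) ≤ S.H * ((16 * 10 ^ 12 * (S.L * S.P *
      (1 + Real.log S.H))) * (((S.Fl N).image S.val).card : ℝ)) := by
    nlinarith
  exact le_of_mul_le_mul_left h8 hH

theorem image_range {N : ℕ} {n : ℤ} (hn : n ∈ (S.Fl N).image S.val) : 1 ≤ n ∧ n ≤ N := by
  rw [Finset.mem_image] at hn
  obtain ⟨x, hx, rfl⟩ := hn
  rw [Fl, Finset.mem_filter] at hx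
  have h := hx.2
  rw [flp, Finset.mem_filter] at h
  exact ⟨h.2.1, h.2.2.1⟩

theorem image_class {N : ℕ} {n : ℤ} (hn : n ∈ (S.Fl N).image S.val) :
    ∃ p ∈ S.Q, ∃ k : ℤ, n = k * p + S.b p := by
  rw [Finset.mem_image] at hn
  obtain ⟨x, hx, rfl⟩ := hn
  rw [Fl, Finset.mem_filter, Finset.mem_product] at hx
  exact ⟨x.1, hx.1.1, x.2, rfl⟩

end Setup

/-- Taylor's inequality from a Lipschitz derivative. -/
theorem taylor {u v B : ℝ} {f g : ℝ → ℝ} (hB : 0 ≤ B)
    (hf : ∀ x ∈ Set.Icc u v, HasDerivWithinAt f (g x) (Set.Icc u v) x)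
    (hg : ∀ x ∈ Set.Icc u v, ∀ y ∈ Set.Icc u v, |g x - g y| ≤ B * |x - y|)
    {x y : ℝ} (hx : x ∈ Set.Icc u v) (hy : y ∈ Set.Icc u v) :
    |f y - f x - g x * (y - x)| ≤ B * (y - x) ^ 2 := by
  have hsub : Set.uIcc x y ⊆ Set.Icc u v := Set.uIcc_subset_Icc hx hy
  have hder : ∀ t ∈ Set.uIcc x y,
      HasDerivWithinAt (fun t => f t - g x * t) (g t - g x) (Set.uIcc x y) t := by
    intro t ht
    have h1 := (hf t (hsub ht)).mono hsub
    have h2 : HasDerivWithinAt (fun t : ℝ => g x * t) (g x) (Set.uIcc x y) t := by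
      simpa using (hasDerivWithinAt_id t (Set.uIcc x y)).const_mul (g x)
    exact h1.sub h2
  have hbd : ∀ t ∈ Set.uIcc x y, ‖g t - g x‖ ≤ B * |y - x| := by
    intro t ht
    rw [Real.norm_eq_abs]
    refine (hg t (hsub ht) x hx).trans (mul_le_mul_of_nonneg_left ?_ hB)
    exact Set.abs_sub_left_of_mem_uIcc ht
  have h := (convex_uIcc x y).norm_image_sub_le_of_norm_hasDerivWithin_le hder hbd
    Set.left_mem_uIcc Set.right_mem_uIcc
  rw [Real.norm_eq_abs, Real.norm_eq_abs] at h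
  have e1 : f y - g x * y - (f x - g x * x) = f y - f x - g x * (y - x) := by ring
  simp only [e1] at h
  calc |f y - f x - g x * (y - x)| ≤ B * |y - x| * |y - x| := h
    _ = B * (y - x) ^ 2 := by rw [mul_assoc, ← sq, sq_abs]

end Pool.Agent.helper72.Cov
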