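import Mathlib

/-! Overlaps of linearly twisted residue classes. -/

namespace Pool.Agent.helper72.Cov

open Finset MeasureTheory

/-- The number of integers `j` with `A ≤ j p ≤ B` is at most `(B - A)/p + 1`. -/
theorem card_int_le {A B p : ℝ} (hp : 0 < p) (hAB : A ≤ B) (J : Finset ℤ)
    (hJ : ∀ j ∈ J, A ≤ j * p ∧ j * p ≤ B) : (J.card : ℝ) ≤ (B - A) / p + 1 := by
  have hsub : J ⊆ Finset.Icc ⌈A / p⌉ ⌊B / p⌋ := by
    intro j hj
    obtain ⟨h1, h2⟩ := hJ j hj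
    rw [Finset.mem_Icc]
    exact ⟨Int.ceil_le.mpr ((div_le_iff₀ hp).mpr h1), Int.le_floor.mpr ((le_div_iff₀ hp).mpr h2)⟩
  have h := Finset.card_le_card hsub
  rw [Int.card_Icc] at h
  have h2 : (J.card : ℤ) ≤ max (⌊B / p⌋ + 1 - ⌈A / p⌉) 0 := by
    calc (J.card : ℤ) ≤ ((⌊B / p⌋ + 1 - ⌈A / p⌉).toNat : ℤ) := by exact_mod_cast h
      _ = max (⌊B / p⌋ + 1 - ⌈A / p⌉) 0 := Int.toNat_eq_max _
  have h3 : (J.card : ℝ) ≤ max ((⌊B / p⌋ : ℝ) + 1 - (⌈A / p⌉ : ℝ)) 0 := by exact_mod_cast h2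
  refine h3.trans (max_le ?_ ?_)
  · have e1 := Int.floor_le (B / p)
    have e2 := Int.le_ceil (A / p)
    rw [sub_div]
    linarith
  · have : 0 ≤ (B - A) / p := div_nonneg (by linarith) hp.le
    linarith

/-- The pairs `(k, l)` for which the classes of `p` and `q` can meet for some twist. -/
def F (H p q : ℕ) (c : ℤ) : Finset (ℕ × ℕ) :=
  (Finset.Icc 1 H ×ˢ Finset.Icc 1 H).filter
    (fun x => |(x.1 : ℤ) * p - x.2 * q + c| ≤ |(p : ℤ) - q|)

theorem card_F_le {H p q : ℕ} (c : ℤ) (hp : 0 < p) (hpq : p ≠ q) (hH : 1 ≤ H) :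
    ((F H p q c).card : ℝ) ≤ 3 * ((H + 1) * |(p : ℝ) - q| / p + 1) := by
  classical
  set D : ℤ := |(p : ℤ) - q| with hD
  have hDpos : 0 < D := abs_pos.mpr (sub_ne_zero.mpr (by exact_mod_cast hpq))
  set J : Finset ℤ := (F H p q c).image (fun x => (x.1 : ℤ) - x.2) with hJ
  have hDR : (D : ℝ) = |(p : ℝ) - q| := by rw [hD]; push_cast; rfl
  -- the map is injective
  have hinj : (F H p q c).card ≤ (J ×ˢ Finset.range 3).card := by
    apply Finset.card_le_card_of_injOn (fun x => (((x.1 : ℤ) - x.2), x.2 % 3))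
    · intro x hx
      simp only [Finset.coe_product, Set.mem_prod, Finset.mem_coe, Finset.mem_range]
      exact ⟨Finset.mem_image_of_mem _ hx, Nat.mod_lt _ (by norm_num)⟩
    · intro x hx y hy hxy
      rw [Finset.mem_coe, F, Finset.mem_filter] at hx hy
      simp only [Prod.mk.injEq] at hxy
      obtain ⟨h1, h2⟩ := hxy
      obtain ⟨hx1, hx2⟩ := hx
      obtain ⟨hy1, hy2⟩ := hy
      -- the difference
      have e1 : ((x.1 : ℤ) * p - x.2 * q + c) - ((y.1 : ℤ) * p - y.2 * q + c) =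
          ((x.2 : ℤ) - y.2) * ((p : ℤ) - q) := by
        have : (x.1 : ℤ) = y.1 - y.2 + x.2 := by linarith
        rw [this]; ring
      have e2 : |((x.2 : ℤ) - y.2) * ((p : ℤ) - q)| ≤ 2 * D := by
        rw [← e1]
        calc |((x.1 : ℤ) * p - x.2 * q + c) - ((y.1 : ℤ) * p - y.2 * q + c)|
            ≤ |(x.1 : ℤ) * p - x.2 * q + c| + |(y.1 : ℤ) * p - y.2 * q + c| := abs_sub _ _
          _ ≤ D + D := add_le_add hx2 hy2
          _ = 2 * D := by ring
      rw [abs_mul, ← hD] at e2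
      have e3 : |(x.2 : ℤ) - y.2| ≤ 2 := le_of_mul_le_mul_right e2 hDpos
      rw [abs_le] at e3
      have e4 : x.2 = y.2 := by omega
      have e5 : x.1 = y.1 := by
        have : (x.1 : ℤ) = y.1 := by rw [e4] at h1; linarith
        exact_mod_cast this
      exact Prod.ext e5 e4
  have hJc : (J.card : ℝ) ≤ (H + 1) * |(p : ℝ) - q| / p + 1 := by
    have hpR : (0 : ℝ) < p := by exact_mod_cast hp
    -- jp = r - l δ - c
    set δ : ℝ := (p : ℝ) - q with hδ
    have habs := abs_nonneg δ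
    have hH1 : (1 : ℝ) ≤ H := by exact_mod_cast hH
    have key : ∀ j ∈ J, -|δ| - c - ((H + 1 : ℝ) / 2 * δ + (H - 1 : ℝ) / 2 * |δ|) ≤ j * (p : ℝ) ∧
        j * (p : ℝ) ≤ |δ| - c - ((H + 1 : ℝ) / 2 * δ - (H - 1 : ℝ) / 2 * |δ|) := by
      intro j hj
      rw [hJ, Finset.mem_image] at hj
      obtain ⟨x, hx, rfl⟩ := hj
      rw [F, Finset.mem_filter, Finset.mem_product, Finset.mem_Icc, Finset.mem_Icc] at hx
      obtain ⟨⟨⟨_, _⟩, hl1, hl2⟩, hx2⟩ := hx
      have hx3 : |((x.1 : ℝ) * p - x.2 * q + c)| ≤ |δ| := by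
        have : ((|(x.1 : ℤ) * p - x.2 * q + c| : ℤ) : ℝ) ≤ ((|(p : ℤ) - q| : ℤ) : ℝ) := by
          exact_mod_cast hx2
        push_cast at this
        exact this
      rw [abs_le] at hx3
      have hl1' : (1 : ℝ) ≤ x.2 := by exact_mod_cast hl1
      have hl2' : (x.2 : ℝ) ≤ H := by exact_mod_cast hl2
      have e1 : (x.1 : ℝ) * p - x.2 * q + c = ((x.1 : ℝ) - x.2) * p + x.2 * δ + c := by
        rw [hδ]; ring
      have e2 : |((x.2 : ℝ) - (H + 1) / 2) * δ| ≤ (H - 1 : ℝ) / 2 * |δ| := by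
        rw [abs_mul]
        apply mul_le_mul_of_nonneg_right _ habs
        rw [abs_le]
        constructor <;> linarith
      rw [abs_le] at e2
      push_cast
      rw [e1] at hx3
      constructor <;> nlinarith [hx3.1, hx3.2, e2.1, e2.2]
    have hle := card_int_le hpR (by nlinarith) J key
    refine hle.trans (le_of_eq ?_)
    congr 2
    ring
  calc ((F H p q c).card : ℝ) ≤ ((J ×ˢ Finset.range 3).card : ℝ) := by exact_mod_cast hinj
    _ = 3 * J.card := by rw [Finset.card_product, Finset.card_range]; push_cast; ring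
    _ ≤ 3 * ((H + 1) * |(p : ℝ) - q| / p + 1) := by gcongr

/-- The twists for which flag `k` of `p` meets flag `l` of `q`. -/
def E (k l p q : ℕ) (c : ℤ) : Set ℝ :=
  {θ | 0 ≤ θ ∧ θ ≤ 1 ∧ |((k : ℝ) * p - l * q + c) + θ * ((p : ℝ) - q)| < 1}

theorem measurableSet_E (k l p q : ℕ) (c : ℤ) : MeasurableSet (E k l p q c) := by
  have : E k l p q c = Set.Icc 0 1 ∩
      {θ : ℝ | |((k : ℝ) * p - l * q + c) + θ * ((p : ℝ) - q)| < 1} := by
    ext θ; simp [E, and_assoc]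
  rw [this]
  apply measurableSet_Icc.inter
  apply measurableSet_lt _ measurable_const
  fun_prop

theorem volume_E_le {k l p q : ℕ} {c : ℤ} (hpq : p ≠ q) :
    volume (E k l p q c) ≤ ENNReal.ofReal (2 / |(p : ℝ) - q|) := by
  set δ : ℝ := (p : ℝ) - q with hδ
  have hδ0 : δ ≠ 0 := sub_ne_zero.mpr (by exact_mod_cast hpq)
  have hδ1 : 0 < |δ| := abs_pos.mpr hδ0
  set r : ℝ := (k : ℝ) * p - l * q + c with hr
  have hsub : E k l p q c ⊆ Metric.ball (-r / δ) (1 / |δ|) := by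
    intro θ hθ
    obtain ⟨_, _, h⟩ := hθ
    rw [← hr, ← hδ] at h
    rw [Metric.mem_ball, Real.dist_eq, lt_div_iff₀ hδ1, ← abs_mul]
    have : (θ - -r / δ) * δ = r + θ * δ := by field_simp; ring
    rw [this]
    exact h
  refine (measure_mono hsub).trans ?_
  rw [Real.volume_ball]
  apply ENNReal.ofReal_le_ofReal
  apply le_of_eq
  ring

theorem E_empty {H k l p q : ℕ} {c : ℤ} (hk : k ∈ Finset.Icc 1 H) (hl : l ∈ Finset.Icc 1 H)
    (h : (k, l) ∉ F H p q c) : E k l p q c = ∅ := by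
  rw [Set.eq_empty_iff_forall_notMem]
  rintro θ ⟨h0, h1, h2⟩
  apply h
  rw [F, Finset.mem_filter, Finset.mem_product]
  refine ⟨⟨hk, hl⟩, ?_⟩
  show |(k : ℤ) * p - l * q + c| ≤ |(p : ℤ) - q|
  by_contra hcon
  push Not at hcon
  have h3 : |(p : ℤ) - q| + 1 ≤ |(k : ℤ) * p - l * q + c| := hcon
  have h4 : |(p : ℝ) - q| + 1 ≤ |(k : ℝ) * p - l * q + c| := by
    have : ((|(p : ℤ) - q| + 1 : ℤ) : ℝ) ≤ ((|(k : ℤ) * p - l * q + c| : ℤ) : ℝ) := by
      exact_mod_cast h3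
    push_cast at this
    exact this
  have h5 : |θ * ((p : ℝ) - q)| ≤ |(p : ℝ) - q| := by
    rw [abs_mul]
    calc |θ| * |(p : ℝ) - q| ≤ 1 * |(p : ℝ) - q| := by
          apply mul_le_mul_of_nonneg_right _ (abs_nonneg _)
          rw [abs_le]; constructor <;> linarith
      _ = _ := one_mul _
  have h6 := abs_add_le ((k : ℝ) * p - l * q + c + θ * ((p : ℝ) - q)) (-(θ * ((p : ℝ) - q)))
  rw [abs_neg, add_neg_cancel_right] at h6
  linarith

theorem pair_bound {H p q : ℕ} (c : ℤ) (hp : 0 < p) (hpq : p ≠ q) (hH : 1 ≤ H) :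
    ∑ k ∈ Finset.Icc 1 H, ∑ l ∈ Finset.Icc 1 H, volume (E k l p q c) ≤
      ENNReal.ofReal (6 * (H + 1) / p + 6 / |(p : ℝ) - q|) := by
  classical
  have hδ1 : 0 < |(p : ℝ) - q| := abs_pos.mpr (sub_ne_zero.mpr (by exact_mod_cast hpq))
  have hpR : (0 : ℝ) < p := by exact_mod_cast hp
  rw [← Finset.sum_product']
  have h1 : ∑ x ∈ Finset.Icc 1 H ×ˢ Finset.Icc 1 H, volume (E x.1 x.2 p q c) =
      ∑ x ∈ F H p q c, volume (E x.1 x.2 p q c) := by
    symm
    apply Finset.sum_subset (Finset.filter_subset _ _)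
    intro x hx hx2
    rw [Finset.mem_product] at hx
    rw [E_empty hx.1 hx.2 hx2, measure_empty]
  rw [h1]
  calc ∑ x ∈ F H p q c, volume (E x.1 x.2 p q c)
      ≤ ∑ x ∈ F H p q c, ENNReal.ofReal (2 / |(p : ℝ) - q|) :=
        Finset.sum_le_sum fun x _ => volume_E_le hpq
    _ = ENNReal.ofReal ((F H p q c).card * (2 / |(p : ℝ) - q|)) := by
        rw [Finset.sum_const, nsmul_eq_mul, ENNReal.ofReal_mul (Nat.cast_nonneg _),
          ENNReal.ofReal_natCast]
    _ ≤ ENNReal.ofReal (6 * (H + 1) / p + 6 / |(p : ℝ) - q|) := by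
        apply ENNReal.ofReal_le_ofReal
        have h2 := card_F_le c hp hpq hH
        calc ((F H p q c).card : ℝ) * (2 / |(p : ℝ) - q|)
            ≤ (3 * ((H + 1) * |(p : ℝ) - q| / p + 1)) * (2 / |(p : ℝ) - q|) := by gcongr
          _ = 6 * (H + 1) / p + 6 / |(p : ℝ) - q| := by
            field_simp
            ring

end Pool.Agent.helper72.Cov
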