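import Pool.Agent.helper72.Cov.Twist

/-! Overlaps of linearly twisted residue classes, averaged. -/

namespace Pool.Agent.helper72.Cov

open Finset MeasureTheory

theorem sum_inv_le (Q : Finset ℕ) (p M : ℕ) (hM : ∀ q ∈ Q, |(p : ℝ) - q| ≤ M) :
    ∑ q ∈ Q.erase p, 1 / |(p : ℝ) - q| ≤ 2 * (1 + Real.log M) := by
  classical
  have hharm : ∑ d ∈ Finset.Icc 1 M, 1 / (d : ℝ) ≤ 1 + Real.log M := by
    have h := harmonic_le_one_add_log M
    rw [harmonic_eq_sum_Icc] at h
    push_cast at h
    simpa [one_div] using h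
  have hsplit : ∑ q ∈ Q.erase p, 1 / |(p : ℝ) - q| =
      ∑ q ∈ (Q.erase p).filter (· < p), 1 / |(p : ℝ) - q| +
      ∑ q ∈ (Q.erase p).filter (fun q => ¬ q < p), 1 / |(p : ℝ) - q| :=
    (Finset.sum_filter_add_sum_filter_not _ _ _).symm
  have h1 : ∑ q ∈ (Q.erase p).filter (· < p), 1 / |(p : ℝ) - q| ≤ ∑ d ∈ Finset.Icc 1 M, 1 / (d : ℝ) := by
    have e1 : ∑ q ∈ (Q.erase p).filter (· < p), 1 / |(p : ℝ) - q| =
        ∑ d ∈ ((Q.erase p).filter (· < p)).image (fun q => p - q), 1 / (d : ℝ) := by
      rw [Finset.sum_image]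
      · apply Finset.sum_congr rfl
        intro q hq
        rw [Finset.mem_filter] at hq
        rw [Nat.cast_sub hq.2.le, abs_of_nonneg]
        have : (q : ℝ) ≤ p := by exact_mod_cast hq.2.le
        linarith
      · intro x hx y hy hxy
        simp only [Finset.coe_filter, Set.mem_ofPred_eq] at hx hy
        simp only at hxy
        omega
    rw [e1]
    apply Finset.sum_le_sum_of_subset_of_nonneg
    · intro d hd
      rw [Finset.mem_image] at hd
      obtain ⟨q, hq, rfl⟩ := hd
      rw [Finset.mem_filter, Finset.mem_erase] at hq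
      rw [Finset.mem_Icc]
      refine ⟨by omega, ?_⟩
      have h := hM q hq.1.2
      have h2 : ((p - q : ℕ) : ℝ) ≤ M := by
        rw [Nat.cast_sub hq.2.le]
        exact (le_abs_self _).trans h
      exact_mod_cast h2
    · intro d _ _
      positivity
  have h2 : ∑ q ∈ (Q.erase p).filter (fun q => ¬ q < p), 1 / |(p : ℝ) - q| ≤
      ∑ d ∈ Finset.Icc 1 M, 1 / (d : ℝ) := by
    have e1 : ∑ q ∈ (Q.erase p).filter (fun q => ¬ q < p), 1 / |(p : ℝ) - q| =
        ∑ d ∈ ((Q.erase p).filter (fun q => ¬ q < p)).image (fun q => q - p), 1 / (d : ℝ) := by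
      rw [Finset.sum_image]
      · apply Finset.sum_congr rfl
        intro q hq
        rw [Finset.mem_filter] at hq
        have hpq : p ≤ q := by omega
        rw [Nat.cast_sub hpq, abs_of_nonpos]
        · ring_nf
        · have : (p : ℝ) ≤ q := by exact_mod_cast hpq
          linarith
      · intro x hx y hy hxy
        simp only [Finset.coe_filter, Set.mem_ofPred_eq] at hx hy
        simp only at hxy
        omega
    rw [e1]
    apply Finset.sum_le_sum_of_subset_of_nonneg
    · intro d hd
      rw [Finset.mem_image] at hd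
      obtain ⟨q, hq, rfl⟩ := hd
      rw [Finset.mem_filter, Finset.mem_erase] at hq
      have hpq : p ≤ q := by omega
      rw [Finset.mem_Icc]
      refine ⟨by omega, ?_⟩
      have h := hM q hq.1.2
      have h2 : ((q - p : ℕ) : ℝ) ≤ M := by
        rw [Nat.cast_sub hpq]
        rw [abs_sub_comm] at h
        exact (le_abs_self _).trans h
      exact_mod_cast h2
    · intro d _ _
      positivity
  rw [hsplit]
  linarith

/-- Cauchy-Schwarz for the size of an image. -/
theorem card_sq_le {ι β : Type*} [DecidableEq ι] [DecidableEq β] (S : Finset ι) (f : ι → β) :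
    S.card ^ 2 ≤ (S.image f).card * ((S ×ˢ S).filter (fun x => f x.1 = f x.2)).card := by
  classical
  have h1 : S.card = ∑ n ∈ S.image f, (S.filter (fun x => f x = n)).card :=
    Finset.card_eq_sum_card_image f S
  have h2 : ((S ×ˢ S).filter (fun x => f x.1 = f x.2)).card =
      ∑ n ∈ S.image f, (S.filter (fun x => f x = n)).card ^ 2 := by
    rw [Finset.card_eq_sum_card_fiberwise (f := fun x => f x.1) (t := S.image f)]
    · apply Finset.sum_congr rfl
      intro n _
      rw [sq, ← Finset.card_product]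
      congr 1
      ext x
      simp only [Finset.mem_filter, Finset.mem_product]
      constructor
      · rintro ⟨⟨⟨h3, h4⟩, h5⟩, h6⟩
        exact ⟨⟨h3, h6⟩, h4, by rw [← h5, h6]⟩
      · rintro ⟨⟨h3, h4⟩, h5, h6⟩
        exact ⟨⟨⟨h3, h5⟩, by rw [h4, h6]⟩, h4⟩
    · intro x hx
      simp only [Finset.coe_filter, Finset.mem_product, Set.mem_ofPred_eq] at hx
      exact Finset.mem_coe.mpr (Finset.mem_image_of_mem f hx.1.1)
  rw [h2]
  nth_rewrite 1 [h1]
  exact sq_sum_le_card_mul_sum_sq

/-- The value of flag `(p, k)` for twist `θ`. -/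
noncomputable def nn (b : ℕ → ℤ) (θ : ℝ) (x : ℕ × ℕ) : ℤ := x.2 * x.1 + b x.1 + ⌊θ * x.1⌋

/-- The dominating function for the number of overlaps. -/
noncomputable def G (Q : Finset ℕ) (b : ℕ → ℤ) (H : ℕ) (θ : ℝ) : ENNReal :=
  ∑ p ∈ Q, ∑ q ∈ Q.erase p, ∑ k ∈ Finset.Icc 1 H, ∑ l ∈ Finset.Icc 1 H,
    (E k l p q (b p - b q)).indicator (fun _ => 1) θ

theorem measurable_G (Q : Finset ℕ) (b : ℕ → ℤ) (H : ℕ) : Measurable (G Q b H) := by
  unfold G
  refine Finset.measurable_sum _ fun p _ => Finset.measurable_sum _ fun q _ =>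
    Finset.measurable_sum _ fun k _ => Finset.measurable_sum _ fun l _ => ?_
  exact measurable_const.indicator (measurableSet_E _ _ _ _ _)

theorem lintegral_G_le {Q : Finset ℕ} {b : ℕ → ℤ} {H : ℕ} {X : ℝ} (hX : 1 ≤ X) (hH : 1 ≤ H)
    (hQ : ∀ p ∈ Q, X ≤ p ∧ (p : ℝ) ≤ 2 * X) :
    ∫⁻ θ, G Q b H θ ≤
      ENNReal.ofReal (6 * (H + 1) * (Q.card : ℝ) ^ 2 / X + 12 * Q.card * (1 + Real.log (2 * X))) := by
  classical
  have e0 : ∫⁻ θ, G Q b H θ = ∑ p ∈ Q, ∑ q ∈ Q.erase p, ∑ k ∈ Finset.Icc 1 H,
      ∑ l ∈ Finset.Icc 1 H, volume (E k l p q (b p - b q)) := by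
    unfold G
    rw [lintegral_finsetSum]
    · refine Finset.sum_congr rfl fun p _ => ?_
      rw [lintegral_finsetSum]
      · refine Finset.sum_congr rfl fun q _ => ?_
        rw [lintegral_finsetSum]
        · refine Finset.sum_congr rfl fun k _ => ?_
          rw [lintegral_finsetSum]
          · refine Finset.sum_congr rfl fun l _ => ?_
            rw [lintegral_indicator (measurableSet_E _ _ _ _ _)]
            simp
          · intro l _
            exact measurable_const.indicator (measurableSet_E _ _ _ _ _)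
        · intro k _
          exact Finset.measurable_sum _ fun l _ =>
            measurable_const.indicator (measurableSet_E _ _ _ _ _)
      · intro q _
        exact Finset.measurable_sum _ fun k _ => Finset.measurable_sum _ fun l _ =>
            measurable_const.indicator (measurableSet_E _ _ _ _ _)
    · intro p _
      exact Finset.measurable_sum _ fun q _ => Finset.measurable_sum _ fun k _ =>
        Finset.measurable_sum _ fun l _ => measurable_const.indicator (measurableSet_E _ _ _ _ _)
  rw [e0]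
  have hX0 : 0 < X := by linarith
  set M : ℕ := ⌊2 * X⌋₊ with hM
  have hM1 : 1 ≤ M := Nat.le_floor (by push_cast; linarith)
  have hM2 : (M : ℝ) ≤ 2 * X := Nat.floor_le (by linarith)
  calc ∑ p ∈ Q, ∑ q ∈ Q.erase p, ∑ k ∈ Finset.Icc 1 H,
      ∑ l ∈ Finset.Icc 1 H, volume (E k l p q (b p - b q))
      ≤ ∑ p ∈ Q, ∑ q ∈ Q.erase p, ENNReal.ofReal (6 * (H + 1) / p + 6 / |(p : ℝ) - q|) := by
        refine Finset.sum_le_sum fun p hp => Finset.sum_le_sum fun q hq => ?_
        have hp0 : (0 : ℝ) < p := by linarith [(hQ p hp).1]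
        exact pair_bound _ (by exact_mod_cast hp0) (Finset.ne_of_mem_erase hq).symm hH
    _ = ENNReal.ofReal (∑ p ∈ Q, ∑ q ∈ Q.erase p, (6 * (H + 1) / p + 6 / |(p : ℝ) - q|)) := by
        rw [ENNReal.ofReal_sum_of_nonneg]
        · refine Finset.sum_congr rfl fun p _ => ?_
          rw [ENNReal.ofReal_sum_of_nonneg]
          intro q _
          positivity
        · intro p _
          exact Finset.sum_nonneg fun q _ => by positivity
    _ ≤ ENNReal.ofReal (6 * (H + 1) * (Q.card : ℝ) ^ 2 / X + 12 * Q.card * (1 + Real.log (2 * X))) := by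
        apply ENNReal.ofReal_le_ofReal
        calc ∑ p ∈ Q, ∑ q ∈ Q.erase p, (6 * ((H : ℝ) + 1) / p + 6 / |(p : ℝ) - q|)
            ≤ ∑ p ∈ Q, (Q.card * (6 * (H + 1) / X) + 12 * (1 + Real.log (2 * X))) := by
              refine Finset.sum_le_sum fun p hp => ?_
              have hp1 := (hQ p hp).1
              rw [Finset.sum_add_distrib]
              apply add_le_add
              · rw [Finset.sum_const, nsmul_eq_mul]
                have e1 : ((Q.erase p).card : ℝ) ≤ Q.card := by
                  exact_mod_cast Finset.card_le_card (Finset.erase_subset _ _)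
                have e2 : 6 * ((H : ℝ) + 1) / p ≤ 6 * (H + 1) / X :=
                  div_le_div_of_nonneg_left (by positivity) hX0 hp1
                exact mul_le_mul e1 e2 (by positivity) (Nat.cast_nonneg _)
              · have e1 : ∑ q ∈ Q.erase p, 6 / |(p : ℝ) - q| =
                    6 * ∑ q ∈ Q.erase p, 1 / |(p : ℝ) - q| := by
                  rw [Finset.mul_sum]
                  refine Finset.sum_congr rfl fun q _ => by ring
                have e2 := sum_inv_le Q p M (by
                  intro q hq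
                  have h1 := hQ p hp
                  have h2 := hQ q hq
                  have h3 : X - 1 < M := by
                    have := Nat.lt_floor_add_one (2 * X)
                    rw [← hM] at this
                    linarith
                  have h4 : 2 * X < M + 1 := Nat.lt_floor_add_one (2 * X)
                  rw [abs_le]
                  constructor <;> linarith)
                rw [e1]
                have e3 : Real.log M ≤ Real.log (2 * X) :=
                  Real.log_le_log (by exact_mod_cast hM1) hM2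
                linarith
          _ = 6 * (H + 1) * (Q.card : ℝ) ^ 2 / X + 12 * Q.card * (1 + Real.log (2 * X)) := by
              rw [Finset.sum_const, nsmul_eq_mul]
              ring

theorem mem_E_of_eq {b : ℕ → ℤ} {θ : ℝ} {p q k l : ℕ} (h0 : 0 ≤ θ) (h1 : θ ≤ 1)
    (h : nn b θ (p, k) = nn b θ (q, l)) : θ ∈ E k l p q (b p - b q) := by
  refine ⟨h0, h1, ?_⟩
  unfold nn at h
  simp only at h
  have hR : (k : ℝ) * p + b p + (⌊θ * p⌋ : ℝ) = l * q + b q + (⌊θ * q⌋ : ℝ) := by exact_mod_cast h
  have e1 := Int.floor_le (θ * p)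
  have e2 := Int.lt_floor_add_one (θ * p)
  have e3 := Int.floor_le (θ * q)
  have e4 := Int.lt_floor_add_one (θ * q)
  push_cast
  rw [abs_lt]
  constructor <;> linarith

/-- Cauchy-Schwarz for a fixed twist. -/
theorem union_bound {Q : Finset ℕ} {b : ℕ → ℤ} {H : ℕ} (hQ : ∀ p ∈ Q, 0 < p) {θ : ℝ}
    (h0 : 0 ≤ θ) (h1 : θ ≤ 1) :
    (((Q.card * H : ℕ) : ENNReal)) ^ 2 ≤
      (((Q ×ˢ Finset.Icc 1 H).image (nn b θ)).card : ENNReal) *
        (((Q.card * H : ℕ) : ENNReal) + G Q b H θ) := by
  classical
  set S := Q ×ˢ Finset.Icc 1 H with hS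
  have hScard : S.card = Q.card * H := by
    rw [hS, Finset.card_product, Nat.card_Icc]; simp
  have hcs := card_sq_le S (nn b θ)
  rw [hScard] at hcs
  -- the collisions
  set Col := (S ×ˢ S).filter (fun x => nn b θ x.1 = nn b θ x.2) with hCol
  have hsub : (Col.card : ENNReal) ≤ ((Q.card * H : ℕ) : ENNReal) + G Q b H θ := by
    have e1 : Col.card ≤ S.card +
        ∑ p ∈ Q, ∑ q ∈ Q.erase p, ((Finset.Icc 1 H ×ˢ Finset.Icc 1 H).filter
          (fun x => nn b θ (p, x.1) = nn b θ (q, x.2))).card := by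
      have hc1 : Col ⊆ (S.image (fun x => (x, x))) ∪
          (Q.biUnion fun p => (Q.erase p).biUnion fun q =>
            (((Finset.Icc 1 H ×ˢ Finset.Icc 1 H).filter
              (fun x => nn b θ (p, x.1) = nn b θ (q, x.2))).image
                (fun x => ((p, x.1), (q, x.2))))) := by
        rintro ⟨⟨p, k⟩, ⟨q, l⟩⟩ hx
        rw [hCol, Finset.mem_filter, Finset.mem_product] at hx
        obtain ⟨⟨hx1, hx2⟩, hx3⟩ := hx
        simp only at hx1 hx2 hx3
        rw [Finset.mem_union]
        by_cases hpq : p = q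
        · left
          subst hpq
          rw [Finset.mem_image]
          refine ⟨(p, k), hx1, ?_⟩
          have hp := hQ p (Finset.mem_product.mp hx1).1
          have : (k : ℤ) * p = l * p := by
            unfold nn at hx3
            simp only at hx3
            linarith
          have hp' : (p : ℤ) ≠ 0 := by exact_mod_cast hp.ne'
          have h2 : (k : ℤ) = l := mul_right_cancel₀ hp' this
          have h3 : k = l := by exact_mod_cast h2
          rw [h3]
        · right
          rw [Finset.mem_biUnion]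
          refine ⟨p, (Finset.mem_product.mp hx1).1, ?_⟩
          rw [Finset.mem_biUnion]
          refine ⟨q, Finset.mem_erase.mpr ⟨fun h => hpq h.symm, (Finset.mem_product.mp hx2).1⟩, ?_⟩
          rw [Finset.mem_image]
          refine ⟨(k, l), ?_, rfl⟩
          rw [Finset.mem_filter, Finset.mem_product]
          exact ⟨⟨(Finset.mem_product.mp hx1).2, (Finset.mem_product.mp hx2).2⟩, hx3⟩
      refine (Finset.card_le_card hc1).trans ((Finset.card_union_le _ _).trans ?_)
      apply Nat.add_le_add Finset.card_image_le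
      refine Finset.card_biUnion_le.trans (Finset.sum_le_sum fun p _ => ?_)
      refine Finset.card_biUnion_le.trans (Finset.sum_le_sum fun q _ => ?_)
      exact Finset.card_image_le
    have e2 : ((∑ p ∈ Q, ∑ q ∈ Q.erase p, ((Finset.Icc 1 H ×ˢ Finset.Icc 1 H).filter
          (fun x => nn b θ (p, x.1) = nn b θ (q, x.2))).card : ℕ) : ENNReal) ≤ G Q b H θ := by
      unfold G
      push_cast
      refine Finset.sum_le_sum fun p _ => Finset.sum_le_sum fun q _ => ?_
      rw [← Finset.sum_product', Finset.card_filter]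
      push_cast
      refine Finset.sum_le_sum fun x _ => ?_
      by_cases h : nn b θ (p, x.1) = nn b θ (q, x.2)
      · rw [if_pos h, Set.indicator_of_mem (mem_E_of_eq h0 h1 h)]
      · rw [if_neg h]
        exact bot_le
    rw [hScard] at e1
    calc (Col.card : ENNReal) ≤ ((Q.card * H +
        ∑ p ∈ Q, ∑ q ∈ Q.erase p, ((Finset.Icc 1 H ×ˢ Finset.Icc 1 H).filter
          (fun x => nn b θ (p, x.1) = nn b θ (q, x.2))).card : ℕ) : ENNReal) := by
          exact_mod_cast e1
      _ = ((Q.card * H : ℕ) : ENNReal) + ((∑ p ∈ Q, ∑ q ∈ Q.erase p,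
          ((Finset.Icc 1 H ×ˢ Finset.Icc 1 H).filter
          (fun x => nn b θ (p, x.1) = nn b θ (q, x.2))).card : ℕ) : ENNReal) := Nat.cast_add _ _
      _ ≤ ((Q.card * H : ℕ) : ENNReal) + G Q b H θ := by gcongr
  calc (((Q.card * H : ℕ) : ENNReal)) ^ 2
      ≤ (((S.image (nn b θ)).card * Col.card : ℕ) : ENNReal) := by exact_mod_cast hcs
    _ = ((S.image (nn b θ)).card : ENNReal) * (Col.card : ENNReal) := Nat.cast_mul _ _
    _ ≤ _ := by gcongr

/-- The measure of the twists for which the union is smaller than `B`. -/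
theorem bad_measure {Q : Finset ℕ} {b : ℕ → ℤ} {H : ℕ} {X B : ℝ} (hX : 1 ≤ X) (hH : 1 ≤ H)
    (hQ : ∀ p ∈ Q, X ≤ p ∧ (p : ℝ) ≤ 2 * X) (hQ1 : 1 ≤ Q.card) (hB : 0 < B)
    (hB2 : 2 * B ≤ Q.card * H) :
    volume {θ : ℝ | 0 ≤ θ ∧ θ ≤ 1 ∧ (((Q ×ˢ Finset.Icc 1 H).image (nn b θ)).card : ℝ) < B} ≤
      ENNReal.ofReal ((6 * (H + 1) * (Q.card : ℝ) ^ 2 / X + 12 * Q.card * (1 + Real.log (2 * X))) *
        (2 * B) / (Q.card * H) ^ 2) := by
  have hH0 : (0 : ℝ) < H := by exact_mod_cast hH
  have hQ0 : (0 : ℝ) < Q.card := by exact_mod_cast hQ1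
  set M : ℝ := Q.card * H with hM
  have hM0 : 0 < M := by positivity
  set T : ℝ := M ^ 2 / (2 * B) with hT
  have hT0 : 0 < T := by positivity
  have hsub : {θ : ℝ | 0 ≤ θ ∧ θ ≤ 1 ∧ (((Q ×ˢ Finset.Icc 1 H).image (nn b θ)).card : ℝ) < B} ⊆
      {θ : ℝ | ENNReal.ofReal T ≤ G Q b H θ} := by
    rintro θ ⟨h0, h1, h2⟩
    rw [Set.mem_ofPred_eq]
    by_contra hcon
    push Not at hcon
    have hu := union_bound (Q := Q) (b := b) (H := H) (fun p hp => by
      have := (hQ p hp).1
      have h3 : (0 : ℝ) < p := by linarith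
      exact_mod_cast h3) h0 h1
    have hGfin : G Q b H θ ≠ ⊤ := ne_top_of_lt hcon
    set U : ℝ := (((Q ×ˢ Finset.Icc 1 H).image (nn b θ)).card : ℝ) with hU
    have e1 : ENNReal.ofReal (M ^ 2) ≤ ENNReal.ofReal (U * (M + T)) := by
      calc ENNReal.ofReal (M ^ 2) = (((Q.card * H : ℕ) : ENNReal)) ^ 2 := by
            rw [ENNReal.ofReal_pow hM0.le, hM, ← Nat.cast_mul, ENNReal.ofReal_natCast]
        _ ≤ _ := hu
        _ ≤ (((Q ×ˢ Finset.Icc 1 H).image (nn b θ)).card : ENNReal) *
            (((Q.card * H : ℕ) : ENNReal) + ENNReal.ofReal T) := by gcongr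
        _ = ENNReal.ofReal (U * (M + T)) := by
            rw [hU, ENNReal.ofReal_mul (Nat.cast_nonneg _), ENNReal.ofReal_add hM0.le hT0.le, hM,
              ENNReal.ofReal_natCast, ← Nat.cast_mul, ENNReal.ofReal_natCast]
    rw [ENNReal.ofReal_le_ofReal_iff (by positivity)] at e1
    have e2 : U * (M + T) < B * (M + T) := by
      apply mul_lt_mul_of_pos_right h2 (by positivity)
    have e3 : B * T = M ^ 2 / 2 := by rw [hT]; field_simp
    have e4 : B * M ≤ M ^ 2 / 2 := by nlinarith
    nlinarith
  refine (measure_mono hsub).trans ?_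
  have hmk := meas_ge_le_lintegral_div (μ := volume) (measurable_G Q b H).aemeasurable
    (ε := ENNReal.ofReal T) (by rw [Ne, ENNReal.ofReal_eq_zero]; push Not; exact hT0)
    ENNReal.ofReal_ne_top
  refine hmk.trans ?_
  calc (∫⁻ θ, G Q b H θ) / ENNReal.ofReal T
      ≤ ENNReal.ofReal (6 * (H + 1) * (Q.card : ℝ) ^ 2 / X +
          12 * Q.card * (1 + Real.log (2 * X))) / ENNReal.ofReal T := by
        gcongr
        exact lintegral_G_le hX hH hQ
    _ = ENNReal.ofReal ((6 * (H + 1) * (Q.card : ℝ) ^ 2 / X +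
          12 * Q.card * (1 + Real.log (2 * X))) / T) := by
        rw [ENNReal.ofReal_div_of_pos hT0]
    _ = _ := by
        congr 1
        rw [hT]
        field_simp

end Pool.Agent.helper72.Cov
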